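import Pool.Agent.Helper65.KT.Defs

/-!
Project KT, module Ct: the choice of j.  For odd s < t' prime to t' put t = t' + 5 s; s is prime to t;
let i be the inverse of s mod t, 0 < i < t; j = i if i is odd, otherwise t is odd and j = t - i.
choice_inj: j is prime to t, so t ∣ s₁ ± s₂ and 0 < s₁, s₂ < t / 2, so s₁ = s₂.
-/

namespace Pool.Agent.Helper65.KT

theorem exists_j {t s : ℕ} (hs : Odd s) (hst : s < t) (hc : Nat.Coprime s t) :
    ∃ j : ℕ, Odd j ∧ j < t + 5 * s ∧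
      (((t + 5 * s : ℕ) : ℤ) ∣ (s : ℤ) * j - 1 ∨ ((t + 5 * s : ℕ) : ℤ) ∣ (s : ℤ) * j + 1) := by
  have hs1 : 1 ≤ s := hs.pos
  obtain ⟨T, hT⟩ : ∃ T, T = t + 5 * s := ⟨_, rfl⟩
  rw [← hT]
  have hT1 : 1 < T := by omega
  have hcT : Nat.Coprime s T := by
    rw [hT]
    exact (Nat.coprime_add_mul_right_right s t 5).2 hc
  obtain ⟨i, hiT, hi⟩ := Nat.exists_mul_mod_eq_one_of_coprime hcT hT1
  have hi0 : 0 < i := by
    rcases Nat.eq_zero_or_pos i with h | h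
    · rw [h] at hi
      simp at hi
    · exact h
  have hd : (T : ℤ) ∣ (s : ℤ) * i - 1 := by
    have h1 : (s * i) % T = 1 % T := by
      rw [hi, Nat.mod_eq_of_lt hT1]
    have h2 : (1 : ℕ) ≡ s * i [MOD T] := h1.symm
    have h3 := (Nat.modEq_iff_dvd).1 h2
    push_cast at h3
    exact h3
  rcases Nat.even_or_odd i with he | ho
  · have hTo : Odd T := by
      rcases Nat.even_or_odd T with hTe | hTo
      · exfalso
        obtain ⟨a, ha⟩ := he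
        obtain ⟨b, hb⟩ := hTe
        obtain ⟨c, hcc⟩ := hd
        rw [ha, hb] at hcc
        push_cast at hcc
        have h5 : (s : ℤ) * (a + a) - 1 = 2 * (s * a) - 1 := by ring
        have h6 : ((b : ℤ) + b) * c = 2 * (b * c) := by ring
        rw [h5, h6] at hcc
        omega
      · exact hTo
    refine ⟨T - i, ?_, by omega, Or.inr ?_⟩
    · obtain ⟨a, ha⟩ := he
      obtain ⟨b, hb⟩ := hTo
      exact ⟨b - a, by omega⟩
    · obtain ⟨c, hcc⟩ := hd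
      refine ⟨s - c, ?_⟩
      rw [Nat.cast_sub hiT.le]
      linear_combination -hcc
  · exact ⟨i, ho, hiT, Or.inl hd⟩

theorem choice_inj {t₁ s₁ t₂ s₂ j : ℕ} (h₁ : 1 ≤ s₁) (h₂ : 1 ≤ s₂)
    (ht : t₁ + 5 * s₁ = t₂ + 5 * s₂)
    (ha : ((t₁ + 5 * s₁ : ℕ) : ℤ) ∣ (s₁ : ℤ) * j - 1 ∨ ((t₁ + 5 * s₁ : ℕ) : ℤ) ∣ (s₁ : ℤ) * j + 1)
    (hb : ((t₂ + 5 * s₂ : ℕ) : ℤ) ∣ (s₂ : ℤ) * j - 1 ∨ ((t₂ + 5 * s₂ : ℕ) : ℤ) ∣ (s₂ : ℤ) * j + 1) :
    t₁ = t₂ ∧ s₁ = s₂ := by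
  rw [← ht] at hb
  obtain ⟨T, hT⟩ : ∃ T, T = t₁ + 5 * s₁ := ⟨_, rfl⟩
  rw [← hT] at ha hb ht
  -- j is prime to T
  have hcop : IsCoprime (T : ℤ) (j : ℤ) := by
    rcases ha with ⟨c, hc⟩ | ⟨c, hc⟩
    · exact ⟨-c, s₁, by linear_combination hc⟩
    · exact ⟨c, -s₁, by linear_combination -hc⟩
  have hb1 : 5 * (s₁ : ℤ) ≤ T := by
    have : 5 * s₁ ≤ T := by omega
    exact_mod_cast this
  have hb2 : 5 * (s₂ : ℤ) ≤ T := by
    have : 5 * s₂ ≤ T := by omega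
    exact_mod_cast this
  have hp1 : (1 : ℤ) ≤ s₁ := by exact_mod_cast h₁
  have hp2 : (1 : ℤ) ≤ s₂ := by exact_mod_cast h₂
  have hsum : ¬ (T : ℤ) ∣ (s₁ : ℤ) + s₂ := by
    intro h
    have := Int.le_of_dvd (by omega) h
    omega
  have hdiff : (T : ℤ) ∣ (s₁ : ℤ) - s₂ → s₁ = s₂ := by
    intro h
    by_contra hne
    have h3 : (s₁ : ℤ) - s₂ ≠ 0 := by
      intro h4
      apply hne
      omega
    rcases lt_or_gt_of_ne h3 with h4 | h4
    · have h5 : (T : ℤ) ∣ (s₂ : ℤ) - s₁ := by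
        have := (dvd_neg (a := (T : ℤ)) (b := (s₁ : ℤ) - s₂)).2 h
        rwa [neg_sub] at this
      have := Int.le_of_dvd (by omega) h5
      omega
    · have := Int.le_of_dvd (by omega) h
      omega
  have hss : s₁ = s₂ := by
    rcases ha with ha | ha <;> rcases hb with hb | hb
    · apply hdiff
      apply hcop.dvd_of_dvd_mul_right
      have h := dvd_sub ha hb
      have e : (s₁ : ℤ) * j - 1 - ((s₂ : ℤ) * j - 1) = ((s₁ : ℤ) - s₂) * j := by ring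
      rwa [e] at h
    · exfalso
      apply hsum
      apply hcop.dvd_of_dvd_mul_right
      have h := dvd_add ha hb
      have e : (s₁ : ℤ) * j - 1 + ((s₂ : ℤ) * j + 1) = ((s₁ : ℤ) + s₂) * j := by ring
      rwa [e] at h
    · exfalso
      apply hsum
      apply hcop.dvd_of_dvd_mul_right
      have h := dvd_add ha hb
      have e : (s₁ : ℤ) * j + 1 + ((s₂ : ℤ) * j - 1) = ((s₁ : ℤ) + s₂) * j := by ring
      rwa [e] at h
    · apply hdiff
      apply hcop.dvd_of_dvd_mul_right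
      have h := dvd_sub ha hb
      have e : (s₁ : ℤ) * j + 1 - ((s₂ : ℤ) * j + 1) = ((s₁ : ℤ) - s₂) * j := by ring
      rwa [e] at h
  refine ⟨?_, hss⟩
  subst hss
  omega

end Pool.Agent.Helper65.KT
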