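import Pool.Agent.Helper65.KT.Cg

/-!
Project KT, module JE: the class determines j (compare Helper65/KG/JE.lean).  Units of ℤ√2:
if x² - 2 y² = ± 1 then |x| = X i, |y| = Y i for some i (descent (x, y) ↦ (2 y - x, x - y) for
x, y > 0, induction on |y|).  Y t ∣ Y i implies t ∣ i (mod_Y, XY_coprime, Y_strictMono: division
with remainder).  Then as in KG: μ.re = ± X (t q), μ.im = ± Y (t q); C = X j' X j - 2 Y j' Y j = ± X δ,
S = X j' Y j - Y j' X j = ± Y δ, δ = |j - j'| < t (X_sub, Y_sub; signs now), q even: X t ∣ S, so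
δ = 0; q odd: X t ∣ C, impossible (X_lt, X_zero; if t = 1 then j = j' = 0).
-/

namespace Pool.Agent.Helper65.KT

open Pool.Agent.Helper20 Pool.Agent.Helper20.MC

private theorem JE_comb {t j : ℕ} {x y : ℤ√2} (hx : LB t j x) (hy : LB t j y)
    (m n : ℤ) : LB t j ((m : ℤ√2) * x + (n : ℤ√2) * y) := by
  obtain ⟨h1, h2⟩ := hx
  obtain ⟨h3, h4⟩ := hy
  rw [B_eq] at h2 h4
  refine ⟨?_, ?_⟩
  · have e : ((m : ℤ√2) * x + (n : ℤ√2) * y).im = m * x.im + n * y.im := by
      simp
    rw [e]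
    exact dvd_add (dvd_mul_of_dvd_right h1 _) (dvd_mul_of_dvd_right h3 _)
  · rw [B_eq]
    have e : X j * ((m : ℤ√2) * x + (n : ℤ√2) * y).im -
        Y j * ((m : ℤ√2) * x + (n : ℤ√2) * y).re =
        m * (X j * x.im - Y j * x.re) + n * (X j * y.im - Y j * y.re) := by
      simp
      ring
    rw [e]
    exact dvd_add (dvd_mul_of_dvd_right h2 _) (dvd_mul_of_dvd_right h4 _)

private theorem JE_norm {μ ν : ℤ√2} (hu : μ * ν = 1) :
    ∃ s0 : ℤ, s0 * s0 = 1 ∧ (s0 = 1 ∨ s0 = -1) ∧ μ.re ^ 2 - 2 * μ.im ^ 2 = s0 := by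
  have h1 : μ.norm * ν.norm = 1 := by rw [← Zsqrtd.norm_mul, hu, Zsqrtd.norm_one]
  have h2 : μ.norm = 1 ∨ μ.norm = -1 := Int.isUnit_iff.1 (IsUnit.of_mul_eq_one _ h1)
  have h3 : μ.norm = μ.re ^ 2 - 2 * μ.im ^ 2 := by
    rw [Zsqrtd.norm_def]
    ring
  refine ⟨μ.norm, ?_, h2, h3.symm⟩
  rcases h2 with h | h <;> rw [h] <;> norm_num

/-- The solutions of `x² - 2 y² = ± 1` in naturals. -/
private theorem JE_unit : ∀ (y x : ℕ), (x : ℤ) ^ 2 - 2 * (y : ℤ) ^ 2 = 1 ∨
    (x : ℤ) ^ 2 - 2 * (y : ℤ) ^ 2 = -1 → ∃ i : ℕ, (x : ℤ) = X i ∧ (y : ℤ) = Y i := by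
  intro y
  induction y using Nat.strong_induction_on with
  | _ y ih =>
    intro x h
    rcases Nat.eq_zero_or_pos y with hy | hy
    · subst hy
      refine ⟨0, ?_, by rw [Y_zero]; rfl⟩
      rw [X_zero]
      have hx0 : (0 : ℤ) ≤ x := Int.natCast_nonneg x
      have h' : (x : ℤ) ^ 2 = 1 := by
        push_cast at h
        rcases h with h | h
        · linarith
        · have := sq_nonneg (x : ℤ)
          linarith
      exact (pow_eq_one_iff_of_nonneg hx0 two_ne_zero).mp h'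
    · have hy1 : (1 : ℤ) ≤ y := by exact_mod_cast hy
      have hx0 : (0 : ℤ) ≤ x := Int.natCast_nonneg x
      have hle : (y : ℤ) ≤ x := by
        by_contra hc
        push Not at hc
        rcases h with h | h <;> nlinarith
      have hlt : (x : ℤ) < 2 * y := by
        by_contra hc
        push Not at hc
        rcases h with h | h <;> nlinarith
      have hle' : y ≤ x := by exact_mod_cast hle
      have hlt' : x < 2 * y := by exact_mod_cast hlt
      obtain ⟨i, hi1, hi2⟩ := ih (x - y) (by omega) (2 * y - x) (by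
        have e1 : ((2 * y - x : ℕ) : ℤ) = 2 * y - x := by
          rw [Nat.cast_sub hlt'.le]; push_cast; ring
        have e2 : ((x - y : ℕ) : ℤ) = x - y := Nat.cast_sub hle'
        rw [e1, e2]
        rcases h with h | h
        · right; linarith [h]
        · left; linarith [h])
      refine ⟨i + 1, ?_, ?_⟩
      · rw [X_succ, ← hi1, ← hi2, Nat.cast_sub hlt'.le, Nat.cast_sub hle']
        push_cast
        ring
      · rw [Y_succ, ← hi1, ← hi2, Nat.cast_sub hlt'.le, Nat.cast_sub hle']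
        push_cast
        ring

private theorem JE_dvd {t i : ℕ} (ht : 1 ≤ t) (h : Y t ∣ Y i) : t ∣ i := by
  have h1 : i = i % t + (i / t) * t := by
    have := Nat.mod_add_div i t
    rw [mul_comm] at this
    omega
  obtain ⟨-, h2⟩ := mod_Y t (i % t) (i / t)
  rw [← h1] at h2
  have h3 : Y t ∣ X t ^ (i / t) * Y (i % t) := by
    have h4 := dvd_sub h h2
    have e : Y i - (Y i - X t ^ (i / t) * Y (i % t)) = X t ^ (i / t) * Y (i % t) := by ring
    rwa [e] at h4
  have h4 : IsCoprime (Y t) (X t ^ (i / t)) := (XY_coprime t).symm.pow_right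
  have h5 : Y t ∣ Y (i % t) := h4.dvd_of_dvd_mul_left h3
  have h6 : i % t < t := Nat.mod_lt _ ht
  have h7 := Y_strictMono h6
  rcases Nat.eq_zero_or_pos (i % t) with h8 | h8
  · exact Nat.dvd_of_mod_eq_zero h8
  · exfalso
    have h9 := Int.le_of_dvd (Y_pos h8) h5
    linarith

theorem j_eq {t j j' : ℕ} (hj : j < t) (hj' : j' < t) {p p' : ℤ × ℤ} {σ σ' : ℤ}
    {y1 y2 z1 z2 : ℤ√2} (h : Rel t j p σ y1 y2) (h' : Rel t j' p' σ' z1 z2)
    {μ ν : ℤ√2} (hu : μ * ν = 1) (h1 : z1 = μ * y1) (h2 : z2 = μ * y2) : j = j' := by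
  have ht : 1 ≤ t := by omega
  rcases Nat.eq_or_lt_of_le ht with ht1 | ht2
  · omega
  obtain ⟨-, -, -, -, -, hspan⟩ := h
  obtain ⟨-, -, -, hz1, hz2, -⟩ := h'
  have key : ∀ x : ℤ√2, LB t j x → LB t j' (μ * x) := by
    intro x hx
    obtain ⟨m, n, rfl⟩ := hspan x hx
    have e : μ * ((m : ℤ√2) * y1 + (n : ℤ√2) * y2) =
        (m : ℤ√2) * z1 + (n : ℤ√2) * z2 := by
      rw [h1, h2]
      ring
    rw [e]
    exact JE_comb hz1 hz2 m n
  have hXY := XY_coprime t
  obtain ⟨s0, hs00, hs01, hnorm⟩ := JE_norm hu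
  -- first condition
  have c1 : Y t ∣ μ.im := by
    have h3 := (key ⟨X t, 0⟩ ⟨by simp, by rw [B_eq]; simp⟩).1
    have e : (μ * (⟨X t, 0⟩ : ℤ√2)).im = X t * μ.im := by
      rw [Zsqrtd.im_mul]
      ring
    rw [e] at h3
    exact hXY.symm.dvd_of_dvd_mul_left h3
  -- second condition
  have c2 : X t ∣ μ.re * (X j' * Y j - Y j' * X j) +
      μ.im * (X j' * X j - 2 * (Y j' * Y j)) := by
    have h3 := (key ⟨Y t * X j, Y t * Y j⟩ ⟨Dvd.intro _ rfl, by
      rw [B_eq]
      exact ⟨0, by ring⟩⟩).2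
    rw [B_eq] at h3
    have e : X j' * (μ * (⟨Y t * X j, Y t * Y j⟩ : ℤ√2)).im -
        Y j' * (μ * (⟨Y t * X j, Y t * Y j⟩ : ℤ√2)).re =
        Y t * (μ.re * (X j' * Y j - Y j' * X j) +
          μ.im * (X j' * X j - 2 * (Y j' * Y j))) := by
      rw [Zsqrtd.im_mul, Zsqrtd.re_mul]
      ring
    rw [e] at h3
    exact hXY.dvd_of_dvd_mul_left h3
  -- the unit is a power of `e`
  obtain ⟨i, hxi, hyi⟩ : ∃ i, ((μ.re.natAbs : ℕ) : ℤ) = X i ∧ ((μ.im.natAbs : ℕ) : ℤ) = Y i := by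
    apply JE_unit
    rw [Int.natAbs_sq, Int.natAbs_sq]
    rcases hs01 with h3 | h3
    · left; rw [hnorm, h3]
    · right; rw [hnorm, h3]
  -- `t` divides `i`
  have hti : t ∣ i := JE_dvd ht (by rw [← hyi]; exact Int.dvd_natAbs.2 c1)
  obtain ⟨q, rfl⟩ := hti
  have sre : μ.re = X (t * q) ∨ μ.re = - X (t * q) := by
    rcases Int.natAbs_eq μ.re with h3 | h3 <;> [left; right] <;> rw [h3, hxi]
  have sim : μ.im = Y (t * q) ∨ μ.im = - Y (t * q) := by
    rcases Int.natAbs_eq μ.im with h3 | h3 <;> [left; right] <;> rw [h3, hyi]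
  set S := X j' * Y j - Y j' * X j with hS
  set C := X j' * X j - 2 * (Y j' * Y j) with hC
  -- sizes of `C` and `S`
  have hXlt : ∀ δ : ℕ, δ < t → X δ < X t := by
    intro δ hδ
    rcases Nat.eq_zero_or_pos δ with h3 | h3
    · rw [h3, X_zero, ← X_one]
      exact X_lt le_rfl ht2
    · exact X_lt h3 hδ
  have hCS : (∃ δ : ℕ, δ < t ∧ (C = X δ ∨ C = - X δ) ∧ (S = Y δ ∨ S = - Y δ) ∧
      (δ = 0 → j = j')) := by
    rcases le_total j' j with h3 | h3
    · refine ⟨j - j', by omega, ?_, ?_, by omega⟩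
      · rw [X_sub h3, hC]
        rcases sgn j' with h4 | h4 <;> rw [h4]
        · left; ring
        · right; ring
      · rw [Y_sub h3, hS]
        rcases sgn j' with h4 | h4 <;> rw [h4]
        · left; ring
        · right; ring
    · refine ⟨j' - j, by omega, ?_, ?_, by omega⟩
      · rw [X_sub h3, hC]
        rcases sgn j with h4 | h4 <;> rw [h4]
        · left; ring
        · right; ring
      · rw [Y_sub h3, hS]
        rcases sgn j with h4 | h4 <;> rw [h4]
        · right; ring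
        · left; ring
  obtain ⟨δ, hδ, hCδ, hSδ, hδ0⟩ := hCS
  have hnC : ¬ X t ∣ C := by
    intro hd
    have h3 : X t ∣ X δ := by
      rcases hCδ with h4 | h4
      · rwa [h4] at hd
      · rw [h4] at hd
        exact (dvd_neg.1 hd)
    have h4 := Int.le_of_dvd (X_pos δ) h3
    exact absurd (hXlt δ hδ) (not_lt.2 h4)
  have hSd : X t ∣ S → j = j' := by
    intro hd
    apply hδ0
    by_contra hne
    have h3 : X t ∣ Y δ := by
      rcases hSδ with h4 | h4
      · rwa [h4] at hd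
      · rw [h4] at hd
        exact (dvd_neg.1 hd)
    have h5 := Int.le_of_dvd (Y_pos (by omega)) h3
    have h6 := Y_le_X δ
    have h7 := hXlt δ hδ
    linarith
  -- reduction modulo `X t`
  rcases Nat.even_or_odd' q with ⟨m, rfl | rfl⟩
  · apply hSd
    obtain ⟨s, hs, -, hs2⟩ := mod_X_even t 0 m
    rw [Y_zero, mul_zero, sub_zero, show 0 + 2 * m * t = t * (2 * m) by ring] at hs2
    have h3 : X t ∣ μ.im := by
      rcases sim with h4 | h4 <;> rw [h4]
      · exact hs2
      · exact (dvd_neg.2 hs2)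
    have h4 : X t ∣ μ.re * S := by
      have := dvd_sub c2 (dvd_mul_of_dvd_left h3 C)
      rwa [add_sub_cancel_right] at this
    have h5 : IsCoprime (X t) μ.re := by
      have h6 : X t ∣ μ.re ^ 2 - s0 := by
        have : μ.re ^ 2 - s0 = 2 * μ.im * μ.im := by linarith
        rw [this]
        exact dvd_mul_of_dvd_right h3 _
      obtain ⟨w, hw⟩ := h6
      exact ⟨-(s0 * w), s0 * μ.re, by linear_combination s0 * hw + hs00⟩
    exact h5.dvd_of_dvd_mul_left h4
  · exfalso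
    obtain ⟨s, hs, hs1, -⟩ := mod_X_odd t 0 m
    rw [Y_zero, mul_zero, mul_zero, mul_zero, sub_zero,
      show 0 + (2 * m + 1) * t = t * (2 * m + 1) by ring] at hs1
    have h3 : X t ∣ μ.re := by
      rcases sre with h4 | h4 <;> rw [h4]
      · exact hs1
      · exact (dvd_neg.2 hs1)
    have h4 : X t ∣ μ.im * C := by
      have := dvd_sub c2 (dvd_mul_of_dvd_left h3 S)
      rwa [add_sub_cancel_left] at this
    have h5 : IsCoprime (X t) μ.im := by
      obtain ⟨w, hw⟩ := h3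
      exact ⟨s0 * (w * μ.re), -(s0 * 2 * μ.im), by
        linear_combination s0 * hnorm + hs00 - s0 * μ.re * hw⟩
    exact hnC (h5.dvd_of_dvd_mul_left h4)

end Pool.Agent.Helper65.KT
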