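import Pool.Agent.Helper65.KT.Cg
import Pool.Agent.Helper20.MC.CF1

/-!
Project KT, module St: the starting point.  Copy of Helper65/KG/St.lean.  1 ≤ j < t, j odd, prime to t:
κ with X_t ∣ κ Y_j - X_j Y_t, 0 < κ < X_t (X_lt; κ ≠ 0 as 0 < X_j < X_t); y1 = ⟨X_t, 0⟩,
y2 = ⟨κ, Y_t⟩, σ = 1, p = (2 κ X_t, 2 X_t²).  p ∈ Red 3 (G t): 8 G² - P² = 4 X_t² (2 Y_t² - κ²); with
s = √2 Y_t, s² = X_t² - (-1)^t, X_t - 1 < s < X_t + 1, bb = 2 X_t s (bb_eq): κ < s, s - κ < X_t,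
X_t < s + κ for 1 ≤ κ ≤ X_t - 1 (for κ < s: s > X_t - 1; for s - κ < X_t: s < X_t + 1; for
X_t < s + κ: s > X_t - 1).
-/

namespace Pool.Agent.Helper65.KT

open Pool.Agent.Helper20 Pool.Agent.Helper20.MC

theorem start {t j : ℕ} (hj : Odd j) (hjt : j < t) (hc : Nat.Coprime j t) :
    ∃ (p : ℤ × ℤ) (y1 y2 : ℤ√2), p ∈ Red 3 (G t) ∧ Rel t j p 1 y1 y2 := by
  have hj1 : 1 ≤ j := hj.pos
  have ht : 1 ≤ t := by omega
  have hXt := X_pos t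
  have hXj := X_pos j
  have hYt := Y_pos ht
  have hlt : X j < X t := X_lt hj1 hjt
  have hX1 : 2 ≤ X t := by linarith
  have hcop : IsCoprime (Y j) (X t) := Y_coprime_X hj hc
  obtain ⟨u, v, huv⟩ := hcop
  obtain ⟨κ, hκ⟩ : ∃ κ : ℤ, κ = (u * (X j * Y t)) % X t := ⟨_, rfl⟩
  have hκ0 : 0 ≤ κ := hκ ▸ Int.emod_nonneg _ hXt.ne'
  have hκ1 : κ < X t := hκ ▸ Int.emod_lt_of_pos _ hXt
  have hκd : X t ∣ κ * Y j - X j * Y t := by
    obtain ⟨q, hq⟩ : ∃ q : ℤ, q = (u * (X j * Y t)) / X t := ⟨_, rfl⟩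
    have h1 : X t * q + κ = u * (X j * Y t) := by
      rw [hκ, hq]
      exact Int.mul_ediv_add_emod _ _
    refine ⟨-(q * Y j) - v * (X j * Y t), ?_⟩
    linear_combination (Y j) * h1 + (X j * Y t) * huv
  have hκne : κ ≠ 0 := by
    rintro rfl
    rw [zero_mul, zero_sub, dvd_neg] at hκd
    have h1 : X t ∣ X j := (XY_coprime t).dvd_of_dvd_mul_right hκd
    have h2 := Int.le_of_dvd hXj h1
    linarith
  have hκ2 : 1 ≤ κ := by omega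
  -- the real numbers
  have hs0 := sr_pos
  have hs1 := sr_mul_self
  have hYr : (0 : ℝ) < (Y t : ℝ) := by exact_mod_cast hYt
  have hXr : (2 : ℝ) ≤ (X t : ℝ) := by exact_mod_cast hX1
  have hκr : (1 : ℝ) ≤ (κ : ℝ) := by exact_mod_cast hκ2
  have hκr2 : (κ : ℝ) + 1 ≤ (X t : ℝ) := by exact_mod_cast hκ1
  have hpr : (X t : ℝ) ^ 2 - 2 * (Y t : ℝ) ^ 2 = (-1) ^ t := by exact_mod_cast pell t
  have hsg : ((-1 : ℝ) ^ t ≤ 1) ∧ (-1 ≤ (-1 : ℝ) ^ t) := by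
    rcases neg_one_pow_eq_or ℝ t with h | h <;> rw [h] <;> norm_num
  obtain ⟨s, hs⟩ : ∃ s : ℝ, s = (Y t : ℝ) * sr := ⟨_, rfl⟩
  have hsp : 0 < s := hs ▸ mul_pos hYr hs0
  have hss : s * s = (X t : ℝ) ^ 2 - (-1) ^ t := by
    rw [hs]
    linear_combination ((Y t : ℝ) ^ 2) * hs1 - hpr
  have hsX : s < (X t : ℝ) + 1 := by
    by_contra hcon
    push Not at hcon
    nlinarith [hsg.2]
  have hXs : (X t : ℝ) - 1 < s := by
    by_contra hcon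
    push Not at hcon
    nlinarith [hsg.1]
  have hbb : bb 3 (G t) = 2 * (X t : ℝ) * s := by
    rw [bb_eq, Y_two_mul, hs]
    push_cast
    ring
  have hDD : (DD 3 : ℤ) = 8 := by
    simp only [DD]
    norm_num
  refine ⟨(2 * κ * X t, 2 * X t ^ 2), ⟨X t, 0⟩, ⟨κ, Y t⟩, ⟨?_, ?_, ?_, ?_, ?_⟩,
    Or.inl rfl, ?_, ?_, ⟨?_, ?_⟩, ⟨?_, ?_⟩, ?_⟩
  · show 0 < 2 * X t ^ 2
    positivity
  · show 2 * X t ^ 2 ∣ DD 3 * (G t : ℤ) ^ 2 - (2 * κ * X t) ^ 2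
    rw [G_cast, hDD]
    exact ⟨4 * Y t ^ 2 - 2 * κ ^ 2, by ring⟩
  · show ((2 * κ * X t : ℤ) : ℝ) < bb 3 (G t)
    rw [hbb]
    push_cast
    nlinarith
  · show bb 3 (G t) - ((2 * κ * X t : ℤ) : ℝ) < ((2 * X t ^ 2 : ℤ) : ℝ)
    rw [hbb]
    push_cast
    nlinarith
  · show ((2 * X t ^ 2 : ℤ) : ℝ) < bb 3 (G t) + ((2 * κ * X t : ℤ) : ℝ)
    rw [hbb]
    push_cast
    nlinarith
  · show 2 * X t ^ 2 = 2 * 1 * (⟨X t, 0⟩ : ℤ√2).norm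
    rw [Zsqrtd.norm_def]
    ring
  · apply Zsqrtd.ext
    · simp
      ring
    · simp [Y_two_mul]
      ring
  · exact dvd_zero _
  · rw [B_eq]
    exact ⟨-Y j, by ring⟩
  · exact dvd_refl _
  · rw [B_eq]
    obtain ⟨w, hw⟩ := hκd
    exact ⟨-w, by linear_combination -hw⟩
  · rintro x ⟨⟨w, hw⟩, hx⟩
    rw [B_eq, hw] at hx
    have h1 : X t ∣ Y j * (κ * w - x.re) := by
      have h2 := (hκd.mul_right w).add hx
      have h3 : (κ * Y j - X j * Y t) * w + (X j * (Y t * w) - Y j * x.re) =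
          Y j * (κ * w - x.re) := by ring
      rwa [h3] at h2
    have h4 : X t ∣ κ * w - x.re :=
      (Y_coprime_X hj hc).symm.dvd_of_dvd_mul_left h1
    obtain ⟨m, hm⟩ := h4
    refine ⟨-m, w, ?_⟩
    apply Zsqrtd.ext
    · simp
      linear_combination -hm
    · simp
      linear_combination hw

end Pool.Agent.Helper65.KT
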