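import Pool.Agent.Helper65.KT.Rl

/-!
Project KT, modules Un and PL (one file): equal points differ by a unit; lower bound for the period.
Copy of Helper65/KG/Un.lean and Helper65/KG/PL.lean.
-/

namespace Pool.Agent.Helper65.KT

open Pool.Agent.Helper20 Pool.Agent.Helper20.MC

private theorem Un_cancel {x w y : ℤ√2} (hy : y ≠ 0)
    (h : x * y = w * y) : x = w := by
  apply ph_inj
  have h1 : ph x * ph y = ph w * ph y := by
    rw [← ph_mul, ← ph_mul, h]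
  exact mul_right_cancel₀ (ph_ne hy) h1

private theorem Un_div {t j : ℕ} {p : ℤ × ℤ} {σ : ℤ} {y1 y2 z1 z2 : ℤ√2}
    (h : Rel t j p σ y1 y2) (hy : y2 * z1 = z2 * y1) : ∃ μ : ℤ√2, z1 = μ * y1 := by
  obtain ⟨_, _, _, _, _, hsp⟩ := h
  have h1 : LB t j ((X t : ℤ) : ℤ√2) := by
    refine ⟨by simp, ?_⟩
    rw [B_eq]
    simp
  have h2 : LB t j (((Y t : ℤ) : ℤ√2) * e ^ j) := by
    refine ⟨?_, ?_⟩
    · rw [Zsqrtd.im_mul]
      simp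
    · unfold B
      rw [mul_assoc, e_mul_star]
      rcases neg_one_pow_eq_or (ℤ√2) j with h | h <;> rw [h] <;> simp
  obtain ⟨m, n, h1'⟩ := hsp _ h1
  obtain ⟨m', n', h2'⟩ := hsp _ h2
  obtain ⟨u, v, huv⟩ := XY_coprime t
  have huv' : (u : ℤ√2) * ((X t : ℤ) : ℤ√2) + (v : ℤ√2) * ((Y t : ℤ) : ℤ√2) = 1 := by
    exact_mod_cast congrArg (fun z : ℤ => (z : ℤ√2)) huv
  have hes := e_mul_star j
  have hss : ((-1 : ℤ√2) ^ j) * (-1) ^ j = 1 := by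
    rcases neg_one_pow_eq_or (ℤ√2) j with h | h <;> rw [h] <;> norm_num
  generalize ((-1 : ℤ√2) ^ j) = s at hes hss
  refine ⟨(u : ℤ√2) * ((m : ℤ√2) * z1 + (n : ℤ√2) * z2) +
    (v : ℤ√2) * s * ((m' : ℤ√2) * z1 + (n' : ℤ√2) * z2) * star e ^ j, ?_⟩
  linear_combination (-z1) * huv' + z1 * (u : ℤ√2) * h1' +
    (-(z1 * (v : ℤ√2) * ((Y t : ℤ) : ℤ√2) * s)) * hes +
    (-(z1 * (v : ℤ√2) * ((Y t : ℤ) : ℤ√2))) * hss +
    z1 * (v : ℤ√2) * s * star e ^ j * h2' +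
    ((u : ℤ√2) * (n : ℤ√2) + (v : ℤ√2) * (n' : ℤ√2) * s * star e ^ j) * hy

theorem eq_unit {t j t' j' : ℕ} (ht : 1 ≤ t) (ht' : 1 ≤ t') {p p' : ℤ × ℤ}
    (hp : p ∈ Red 3 (G t)) (hp' : p' ∈ Red 3 (G t')) {σ σ' : ℤ}
    {y1 y2 z1 z2 : ℤ√2} (h : Rel t j p σ y1 y2) (h' : Rel t' j' p' σ' z1 z2)
    (he : xv 3 (G t) p = xv 3 (G t') p') :
    t = t' ∧ ∃ μ ν : ℤ√2, μ * ν = 1 ∧ z1 = μ * y1 ∧ z2 = μ * y2 := by
  obtain ⟨hy0, hy⟩ := Rel.ph_eq ht hp h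
  obtain ⟨hz0, hz⟩ := Rel.ph_eq ht' hp' h'
  have hyz : y2 * z1 = z2 * y1 := by
    apply ph_inj
    rw [ph_mul, ph_mul, hy, hz, he]
    ring
  obtain ⟨μ, hμ⟩ := Un_div h hyz
  obtain ⟨ν, hν⟩ := Un_div h' hyz.symm
  have hμν : μ * ν = 1 := by
    apply Un_cancel hy0
    rw [one_mul]
    calc μ * ν * y1 = ν * (μ * y1) := by ring
      _ = ν * z1 := by rw [← hμ]
      _ = y1 := hν.symm
  have hz2 : z2 = μ * y2 := by
    apply Un_cancel hy0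
    rw [← hyz, hμ]
    ring
  refine ⟨?_, μ, ν, hμν, hμ, hz2⟩
  obtain ⟨hs, _, hP, _, _, _⟩ := h
  obtain ⟨hs', _, hP', _, _, _⟩ := h'
  have hn : μ.norm = 1 ∨ μ.norm = -1 := by
    have h1 : μ.norm * ν.norm = 1 := by
      rw [← Zsqrtd.norm_mul, hμν, Zsqrtd.norm_one]
    exact Int.eq_one_or_neg_one_of_mul_eq_one h1
  have hP2 : (⟨p'.1, Y (2 * t')⟩ : ℤ√2) =
      ((σ' * μ.norm * σ : ℤ) : ℤ√2) * ⟨p.1, Y (2 * t)⟩ := by
    have hσ : ((σ : ℤ) : ℤ√2) * ((σ : ℤ) : ℤ√2) = 1 := by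
      rcases hs with rfl | rfl <;> simp
    have hnm : ((μ.norm : ℤ) : ℤ√2) = μ * star μ := Zsqrtd.norm_eq_mul_conj μ
    rw [hP, hP', hz2, hμ, star_mul]
    push_cast
    rw [hnm]
    linear_combination (-(2 * (σ' : ℤ√2) * μ * star μ * y2 * star y1)) * hσ
  have him := congrArg Zsqrtd.im hP2
  rw [Zsqrtd.im_mul] at him
  simp only [Zsqrtd.re_intCast, Zsqrtd.im_intCast, zero_mul, add_zero] at him
  have hp1 : 0 < Y (2 * t) := Y_pos (by omega)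
  have hp2 : 0 < Y (2 * t') := Y_pos (by omega)
  have hY : Y (2 * t') = Y (2 * t) := by
    rcases hs with rfl | rfl <;> rcases hs' with rfl | rfl <;> rcases hn with hn | hn <;>
      rw [hn] at him <;> linarith
  have := Y_strictMono.injective hY
  omega

private theorem PL_dvd {t j : ℕ} {p : ℤ × ℤ} {σ σ' : ℤ} {y1 y2 z1 z2 μ : ℤ√2}
    (h : Rel t j p σ y1 y2) (h' : Rel t j p σ' z1 z2) (h1 : z1 = μ * y1)
    (h2 : z2 = μ * y2) : Y t ∣ μ.im := by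
  obtain ⟨_, _, _, _, _, hsp⟩ := h
  obtain ⟨_, _, _, ⟨hz1, _⟩, ⟨hz2, _⟩, _⟩ := h'
  have hX : LB t j ((X t : ℤ) : ℤ√2) := by
    refine ⟨by simp, ?_⟩
    rw [B_eq]
    simp
  obtain ⟨m, n, hmn⟩ := hsp _ hX
  have h3 : μ * ((X t : ℤ) : ℤ√2) = (m : ℤ√2) * z1 + (n : ℤ√2) * z2 := by
    rw [hmn, h1, h2]
    ring
  have h4 := congrArg Zsqrtd.im h3
  rw [Zsqrtd.im_add, Zsqrtd.im_mul, Zsqrtd.im_mul, Zsqrtd.im_mul] at h4
  simp only [Zsqrtd.re_intCast, Zsqrtd.im_intCast, mul_zero, zero_mul, add_zero, zero_add] at h4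
  have h5 : Y t ∣ μ.im * X t := by
    rw [h4]
    exact dvd_add (Dvd.dvd.mul_left hz1 m) (Dvd.dvd.mul_left hz2 n)
  exact (XY_coprime t).symm.dvd_of_dvd_mul_right h5

theorem period_lb {t j : ℕ} (ht : 1 ≤ t) {p : ℤ × ℤ} (hp : p ∈ Red 3 (G t))
    {σ : ℤ} {y1 y2 : ℤ√2} (h : Rel t j p σ y1 y2) {M : ℝ} (hM : 1 ≤ M)
    (hb : ∀ i : ℕ, xv 3 (G t) ((nx 3 (G t))^[i] p) ≤ M) {n : ℕ} (hn : 1 ≤ n)
    (he : (nx 3 (G t))^[n] p = p) : (Y t : ℝ) ≤ M ^ n := by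
  obtain ⟨-, σ', z1, z2, hR, hlt, hle⟩ := Rel.iter ht hp h n
  rw [he] at hR
  obtain ⟨-, μ, ν, hμν, hz1, hz2⟩ := eq_unit ht ht hp hp h hR rfl
  have hlt' := hlt hn
  have hle' := hle M hM hb
  obtain ⟨hy0, -⟩ := Rel.ph_eq ht hp h
  have hy : 0 < |ph y1| := abs_pos.2 (ph_ne hy0)
  have hz : |ph z1| = |ph μ| * |ph y1| := by
    rw [hz1, ph_mul, abs_mul]
  have h1 : |ph μ| < 1 := by
    rw [hz] at hlt'
    by_contra hc
    push Not at hc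
    nlinarith
  have h2 : 1 ≤ M ^ n * |ph μ| := by
    rw [hz] at hle'
    by_contra hc
    push Not at hc
    have h3 := mul_lt_mul_of_pos_right hc hy
    linarith
  have hnorm : μ.norm = 1 ∨ μ.norm = -1 := by
    have h1 : μ.norm * ν.norm = 1 := by
      rw [← Zsqrtd.norm_mul, hμν, Zsqrtd.norm_one]
    exact Int.eq_one_or_neg_one_of_mul_eq_one h1
  have hprod : |ph μ| * |ps μ| = 1 := by
    rw [← abs_mul, ph_mul_ps]
    rcases hnorm with h | h <;> rw [h] <;> norm_num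
  have hMn : (0 : ℝ) < M ^ n := pow_pos (by linarith) n
  have hM1 : (1 : ℝ) ≤ M ^ n := one_le_pow₀ hM
  have hps : |ps μ| ≤ M ^ n := by
    have h3 : |ps μ| * 1 ≤ |ps μ| * (M ^ n * |ph μ|) :=
      mul_le_mul_of_nonneg_left h2 (abs_nonneg _)
    have h4 : |ps μ| * (M ^ n * |ph μ|) = M ^ n * (|ph μ| * |ps μ|) := by ring
    rw [h4, hprod] at h3
    linarith
  have him : μ.im ≠ 0 := by
    intro h0
    have h3 : |ph μ| = |ps μ| := by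
      unfold ph ps
      rw [h0]
      simp
    rw [← h3] at hprod
    nlinarith [abs_nonneg (ph μ)]
  have hdvd := PL_dvd h hR hz1 hz2
  have hY : Y t ≤ |μ.im| := Int.le_of_dvd (abs_pos.2 him) ((dvd_abs _ _).2 hdvd)
  have hYr : (Y t : ℝ) ≤ |(μ.im : ℝ)| := by exact_mod_cast hY
  have hs : 1 ≤ sr := by
    have h3 := lt_sr
    linarith
  have hdiff : 2 * sr * |(μ.im : ℝ)| ≤ 1 + M ^ n := by
    have h3 : ph μ - ps μ = 2 * sr * (μ.im : ℝ) := by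
      unfold ph ps
      ring
    have h4 : |ph μ - ps μ| = 2 * sr * |(μ.im : ℝ)| := by
      rw [h3, abs_mul, abs_of_pos (by linarith : (0 : ℝ) < 2 * sr)]
    rw [← h4]
    calc |ph μ - ps μ| ≤ |ph μ| + |ps μ| := abs_sub _ _
      _ ≤ 1 + M ^ n := by linarith
  have h0 : (0 : ℝ) ≤ |(μ.im : ℝ)| := abs_nonneg _
  nlinarith

end Pool.Agent.Helper65.KT
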