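import Pool.Agent.Helper65.KT.Defs

/-!
Project KT, module Bd: size estimates (compare Helper65/KG/Bd.lean).  Put α = |ph x|,
β = |ps x|, n = |N x| = α β (ph_mul_ps), E = ε^(2j), β ≤ α ≤ E β.
2 √2 x.im = ph x - ps x, so 8 x.im² ≤ (α + β)²; for y = x * star e ^ j: |ph y| = α / ε^j,
|ps y| = β ε^j (ps_star, ph_star, abs_ps_e_pow, ph_e_pow), so 8 B_j² ≤ α² / E + 2 α β + β² E
and 4 A_j² ≤ the same.  (α - β)(E β - α) ≥ 0 gives α² + E β² ≤ (E + 1) α β; β² ≤ α β,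
α² / E ≤ α β.  Hence sum_B, sum_A; the crude bounds as in KG.
direct (j = 1, t ≥ 5): (E β - α)(α - β / E) ≥ 0 and E + 1/E = 6 give 8 x.im² ≤ 8 n,
8 B_1² ≤ 8 n, 4 A_1² ≤ 8 n (same computation for y, whose ratio is in [1/E, 1]).  If
x.im ≠ 0 then n ≥ Y_t²; otherwise B_1 x ≠ 0, n ≥ X_t², or A_1 x ≠ 0, 2 n ≥ X_t².  In all
cases 2 n ≥ 2 Y_t² - 1 (pell), and Y_t ≥ 29 (X_five, Y_strictMono) with
X_t² ≤ 2 Y_t² + 1 gives 7 X_t Y_t ≤ 10 n (check: X_t ≤ 1.4149 Y_t).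
-/

namespace Pool.Agent.Helper65.KT

open Pool.Agent.Helper20 Pool.Agent.Helper20.MC

private theorem Bd_norm (x : ℤ√2) : |(x.norm : ℝ)| = |ph x| * |ps x| := by
  rw [← ph_mul_ps, abs_mul]

/-- The two absolute values of `y = x * star e ^ j`. -/
private theorem Bd_y (j : ℕ) (x : ℤ√2) :
    |ph (x * star e ^ j)| * ep ^ j = |ph x| ∧ |ps (x * star e ^ j)| = |ps x| * ep ^ j := by
  constructor
  · rw [ph_mul, ← star_pow, ph_star, abs_mul, mul_assoc, abs_ps_e_pow, mul_one]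
  · rw [ps_mul, ← star_pow, ps_star, ph_e_pow, abs_mul, abs_of_pos (ep_pow_pos j)]

private theorem Bd_sub_sq (u v : ℝ) : (u - v) ^ 2 ≤ (|u| + |v|) ^ 2 := by
  rw [← sq_abs]
  exact pow_le_pow_left₀ (abs_nonneg _) (abs_sub _ _) 2

private theorem Bd_add_sq (u v : ℝ) : (u + v) ^ 2 ≤ (|u| + |v|) ^ 2 := by
  rw [← sq_abs]
  exact pow_le_pow_left₀ (abs_nonneg _) (abs_add_le _ _) 2

private theorem Bd_im (x : ℤ√2) : 8 * (x.im : ℝ) ^ 2 ≤ (|ph x| + |ps x|) ^ 2 := by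
  refine le_trans (le_of_eq ?_) (Bd_sub_sq (ph x) (ps x))
  have h := sr_mul_self
  have h3 : ph x - ps x = 2 * sr * (x.im : ℝ) := by
    unfold ph ps
    ring
  rw [h3]
  linear_combination (-4 * (x.im : ℝ) ^ 2) * h

private theorem Bd_B (j : ℕ) (x : ℤ√2) : 8 * (B j x : ℝ) ^ 2 ≤
    (|ph (x * star e ^ j)| + |ps (x * star e ^ j)|) ^ 2 :=
  Bd_im (x * star e ^ j)

private theorem Bd_A (j : ℕ) (x : ℤ√2) : 4 * (A j x : ℝ) ^ 2 ≤
    (|ph (x * star e ^ j)| + |ps (x * star e ^ j)|) ^ 2 := by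
  refine le_trans (le_of_eq ?_) (Bd_add_sq (ph (x * star e ^ j)) (ps (x * star e ^ j)))
  have h3 : ph (x * star e ^ j) + ps (x * star e ^ j) = 2 * (A j x : ℝ) := by
    unfold ph ps A
    ring
  rw [h3]
  ring

/-- With `a = |ph y|`, `b = |ps y|`: `a b = n`, `a ≤ b`, `a² ≤ n`, `b² = E β²`. -/
private theorem Bd_ab {j : ℕ} {x : ℤ√2}
    (h2 : |ph x| ≤ ep ^ (2 * j) * |ps x|) :
    0 ≤ |ph (x * star e ^ j)| ∧ |ph (x * star e ^ j)| ≤ |ps (x * star e ^ j)| ∧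
    |ph (x * star e ^ j)| * |ps (x * star e ^ j)| = |(x.norm : ℝ)| ∧
    |ps (x * star e ^ j)| ^ 2 = ep ^ (2 * j) * |ps x| ^ 2 := by
  obtain ⟨h3, h4⟩ := Bd_y j x
  have h0 := ep_pow_pos j
  refine ⟨abs_nonneg _, ?_, ?_, ?_⟩
  · rw [h4]
    rw [two_mul, pow_add, mul_assoc] at h2
    rw [← h3, mul_comm] at h2
    have := le_of_mul_le_mul_left h2 h0
    linarith
  · rw [h4, Bd_norm, ← h3]
    ring
  · rw [h4, two_mul, pow_add]
    ring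

/-- Both squares are at most `4 n E`. -/
private theorem Bd_crude {j : ℕ} {x : ℤ√2} (h1 : |ps x| ≤ |ph x|)
    (h2 : |ph x| ≤ ep ^ (2 * j) * |ps x|) :
    (|ph (x * star e ^ j)| + |ps (x * star e ^ j)|) ^ 2 ≤
      4 * (|(x.norm : ℝ)| * ep ^ (2 * j)) := by
  obtain ⟨h3, h4, h5, h6⟩ := Bd_ab h2
  have h7 : (|ph (x * star e ^ j)| + |ps (x * star e ^ j)|) ^ 2 ≤
      (2 * |ps (x * star e ^ j)|) ^ 2 :=
    pow_le_pow_left₀ (by positivity) (by linarith) 2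
  have h8 : |ps x| * |ps x| ≤ |ph x| * |ps x| :=
    mul_le_mul_of_nonneg_right h1 (abs_nonneg _)
  have h9 := mul_le_mul_of_nonneg_left h8 (ep_pow_pos (2 * j)).le
  rw [Bd_norm]
  rw [mul_pow, h6] at h7
  nlinarith

theorem im_bd {j : ℕ} {x : ℤ√2} (h1 : |ps x| ≤ |ph x|)
    (h2 : |ph x| ≤ ep ^ (2 * j) * |ps x|) :
    2 * (x.im : ℝ) ^ 2 ≤ |(x.norm : ℝ)| * ep ^ (2 * j) := by
  have h3 := Bd_im x
  have h4 : (|ph x| + |ps x|) ^ 2 ≤ (2 * |ph x|) ^ 2 :=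
    pow_le_pow_left₀ (by positivity) (by linarith) 2
  have h5 : |ph x| * |ph x| ≤ |ph x| * (ep ^ (2 * j) * |ps x|) :=
    mul_le_mul_of_nonneg_left h2 (abs_nonneg _)
  rw [Bd_norm]
  nlinarith

theorem B_bd {j : ℕ} {x : ℤ√2} (h1 : |ps x| ≤ |ph x|)
    (h2 : |ph x| ≤ ep ^ (2 * j) * |ps x|) :
    2 * (B j x : ℝ) ^ 2 ≤ |(x.norm : ℝ)| * ep ^ (2 * j) := by
  have h3 := Bd_B j x
  have h4 := Bd_crude h1 h2
  linarith

theorem A_bd {j : ℕ} {x : ℤ√2} (h1 : |ps x| ≤ |ph x|)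
    (h2 : |ph x| ≤ ep ^ (2 * j) * |ps x|) :
    (A j x : ℝ) ^ 2 ≤ |(x.norm : ℝ)| * ep ^ (2 * j) := by
  have h3 := Bd_A j x
  have h4 := Bd_crude h1 h2
  linarith

private theorem Bd_sum {j : ℕ} {x : ℤ√2} (h1 : |ps x| ≤ |ph x|)
    (h2 : |ph x| ≤ ep ^ (2 * j) * |ps x|) :
    (|ph x| + |ps x|) ^ 2 + (|ph (x * star e ^ j)| + |ps (x * star e ^ j)|) ^ 2 ≤
      |(x.norm : ℝ)| * (ep ^ (2 * j) + 7) := by
  obtain ⟨h3, h4, h5, h6⟩ := Bd_ab h2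
  have h7 := Bd_norm x
  have h8 : |ps x| * |ps x| ≤ |ph x| * |ps x| :=
    mul_le_mul_of_nonneg_right h1 (abs_nonneg _)
  have h9 : |ph (x * star e ^ j)| * |ph (x * star e ^ j)| ≤
      |ph (x * star e ^ j)| * |ps (x * star e ^ j)| :=
    mul_le_mul_of_nonneg_left h4 h3
  have h10 : 0 ≤ (|ph x| - |ps x|) * (ep ^ (2 * j) * |ps x| - |ph x|) :=
    mul_nonneg (by linarith) (by linarith)
  have h11 : (|ph (x * star e ^ j)| + |ps (x * star e ^ j)|) ^ 2 =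
      |ph (x * star e ^ j)| * |ph (x * star e ^ j)| +
      2 * (|ph (x * star e ^ j)| * |ps (x * star e ^ j)|) +
      |ps (x * star e ^ j)| ^ 2 := by ring
  rw [h11, h6]
  rw [h5] at h9 ⊢
  rw [h7] at h9 ⊢
  nlinarith

theorem sum_B {j : ℕ} {x : ℤ√2} (h1 : |ps x| ≤ |ph x|)
    (h2 : |ph x| ≤ ep ^ (2 * j) * |ps x|) :
    8 * (x.im : ℝ) ^ 2 + 8 * (B j x : ℝ) ^ 2 ≤ |(x.norm : ℝ)| * (ep ^ (2 * j) + 7) := by
  have h3 := Bd_im x
  have h4 := Bd_B j x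
  have h5 := Bd_sum h1 h2
  linarith

theorem sum_A {j : ℕ} {x : ℤ√2} (h1 : |ps x| ≤ |ph x|)
    (h2 : |ph x| ≤ ep ^ (2 * j) * |ps x|) :
    8 * (x.im : ℝ) ^ 2 + 4 * (A j x : ℝ) ^ 2 ≤ |(x.norm : ℝ)| * (ep ^ (2 * j) + 7) := by
  have h3 := Bd_im x
  have h4 := Bd_A j x
  have h5 := Bd_sum h1 h2
  linarith

private theorem Bd_ep_sq : ep ^ 2 * (6 - ep ^ 2) = 1 := by
  have h := sr_mul_self
  unfold ep
  linear_combination (-(sr * sr) - 4 * sr - 2) * h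

/-- a ≤ b ≤ E a or b ≤ a ≤ E b with E = ε² gives (a + b)² ≤ 8 a b. -/
private theorem Bd_six {a b : ℝ} (ha : 0 ≤ a) (hab : a ≤ b) (hb : b ≤ ep ^ 2 * a) :
    (a + b) ^ 2 ≤ 8 * (a * b) := by
  have h1 := Bd_ep_sq
  have h2 : 0 < ep ^ 2 := ep_pow_pos 2
  have h3 : 1 ≤ ep ^ 2 := one_le_ep_pow 2
  have h4 : 6 - ep ^ 2 ≤ 1 := by nlinarith
  have h5 : 0 ≤ (ep ^ 2 * a - b) * (b - (6 - ep ^ 2) * a) :=
    mul_nonneg (by linarith) (by nlinarith)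
  have h6 : (ep ^ 2 * a - b) * (b - (6 - ep ^ 2) * a) =
      6 * (a * b) - b ^ 2 - ep ^ 2 * (6 - ep ^ 2) * a ^ 2 := by ring
  rw [h6, h1] at h5
  nlinarith

private theorem Bd_dvd_sq {u v : ℤ} (hu : 0 ≤ u) (h : u ∣ v) (hv : v ≠ 0) :
    (u : ℝ) ^ 2 ≤ (v : ℝ) ^ 2 := by
  have h1 : u ≤ |v| := Int.le_of_dvd (abs_pos.2 hv) ((dvd_abs u v).2 h)
  have h2 : u ^ 2 ≤ v ^ 2 := by
    rw [← sq_abs v]
    exact pow_le_pow_left₀ hu h1 2
  exact_mod_cast h2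

theorem direct {t : ℕ} (ht : 5 ≤ t) {x : ℤ√2} (hx : x ≠ 0)
    (hL : LB t 1 x ∨ LA t 1 x) (h1 : |ps x| ≤ |ph x|)
    (h2 : |ph x| ≤ ep ^ (2 * 1) * |ps x|) :
    (X t : ℝ) * Y t ≤ 10 / 7 * |(x.norm : ℝ)| := by
  have hY29 : (29 : ℤ) ≤ Y t := by
    have h := Y_strictMono.monotone ht
    rwa [X_five.2] at h
  have hY29' : (29 : ℝ) ≤ (Y t : ℝ) := by exact_mod_cast hY29
  have hX0 : (0 : ℝ) < (X t : ℝ) := by exact_mod_cast X_pos t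
  have hpell : (X t : ℝ) ^ 2 - 2 * (Y t : ℝ) ^ 2 = (-1) ^ t := by exact_mod_cast pell t
  have hs : (-1 : ℝ) ≤ (-1) ^ t ∧ (-1 : ℝ) ^ t ≤ 1 := by
    rcases neg_one_pow_eq_or ℝ t with h | h <;> rw [h] <;> norm_num
  obtain ⟨h3, h4, h5, h6⟩ := Bd_ab h2
  obtain ⟨h7, h8⟩ := Bd_y 1 x
  have hep : 0 < ep := ep_pos
  -- the two sharp bounds
  have hI : (|ph x| + |ps x|) ^ 2 ≤ 8 * |(x.norm : ℝ)| := by
    rw [Bd_norm]
    have h := Bd_six (abs_nonneg (ps x)) h1 (by simpa using h2)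
    nlinarith
  have hJ : (|ph (x * star e ^ 1)| + |ps (x * star e ^ 1)|) ^ 2 ≤ 8 * |(x.norm : ℝ)| := by
    rw [← h5]
    refine Bd_six h3 h4 ?_
    rw [h8]
    rw [← h7] at h1
    have h9 := mul_le_mul_of_nonneg_right h1 hep.le
    nlinarith
  have hkey : 2 * (Y t : ℝ) ^ 2 - 1 ≤ 2 * |(x.norm : ℝ)| := by
    by_cases him : x.im = 0
    · have hre : x.re ≠ 0 := by
        intro h0
        apply hx
        exact Zsqrtd.ext h0 him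
      rcases hL with ⟨-, hd⟩ | ⟨-, hd⟩
      · have hB : B 1 x ≠ 0 := by
          rw [B_eq, him, Y_one]
          simpa using hre
        have h9 := Bd_dvd_sq (X_pos t).le hd hB
        have h10 := Bd_B 1 x
        have h11 : 0 ≤ |(x.norm : ℝ)| := abs_nonneg _
        linarith
      · have hA : A 1 x ≠ 0 := by
          rw [A_eq, him, X_one]
          simpa using hre
        have h9 := Bd_dvd_sq (X_pos t).le hd hA
        have h10 := Bd_A 1 x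
        linarith
    · have hd : Y t ∣ x.im := by
        rcases hL with h | h
        · exact h.1
        · exact h.1
      have h9 := Bd_dvd_sq (Y_nonneg t) hd him
      have h10 := Bd_im x
      linarith
  -- X ≤ 1.4149 Y
  have hXY : (X t : ℝ) ≤ 1.4149 * Y t := by
    by_contra hc
    push Not at hc
    nlinarith
  nlinarith

end Pool.Agent.Helper65.KT
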