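import Pool.Agent.Helper65.KT.Defs

/-!
Project KT, module Cg: congruences.  Copy of Helper65/KG/Cg.lean with D = 2 and norm -1:
modulo X j, e ^ (2 j) = X (2 j) + Y (2 j) √2 ≡ -(-1)^j (X_two_mul, Y_two_mul).
-/

namespace Pool.Agent.Helper65.KT

open Pool.Agent.Helper20 Pool.Agent.Helper20.MC

theorem mod_Y (j r k : ℕ) :
    Y j ∣ X (r + k * j) - X j ^ k * X r ∧ Y j ∣ Y (r + k * j) - X j ^ k * Y r := by
  induction k with
  | zero => simp
  | succ k ih =>
    obtain ⟨h1, h2⟩ := ih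
    have e : r + (k + 1) * j = (r + k * j) + j := by ring
    rw [e, X_add (r + k * j) j, Y_add (r + k * j) j]
    constructor
    · have e1 : X (r + k * j) * X j + 2 * (Y (r + k * j) * Y j) - X j ^ (k + 1) * X r
          = X j * (X (r + k * j) - X j ^ k * X r) + Y j * (2 * Y (r + k * j)) := by
        ring
      rw [e1]
      exact dvd_add (dvd_mul_of_dvd_right h1 _) (dvd_mul_right _ _)
    · have e1 : X (r + k * j) * Y j + Y (r + k * j) * X j - X j ^ (k + 1) * Y r
          = X j * (Y (r + k * j) - X j ^ k * Y r) + Y j * X (r + k * j) := by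
        ring
      rw [e1]
      exact dvd_add (dvd_mul_of_dvd_right h2 _) (dvd_mul_right _ _)

theorem mod_X_even (j r m : ℕ) : ∃ s : ℤ, (s = 1 ∨ s = -1) ∧
    X j ∣ X (r + 2 * m * j) - s * X r ∧ X j ∣ Y (r + 2 * m * j) - s * Y r := by
  induction m with
  | zero => exact ⟨1, Or.inl rfl, by simp, by simp⟩
  | succ m ih =>
    obtain ⟨s, hs, h1, h2⟩ := ih
    obtain ⟨η, hη⟩ : ∃ η : ℤ, η = (-1) ^ j := ⟨_, rfl⟩
    have hη' : η = 1 ∨ η = -1 := by
      rw [hη]
      exact sgn j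
    refine ⟨-(η * s), by rcases hs with h | h <;> rcases hη' with h' | h' <;> simp [h, h'],
      ?_, ?_⟩
    · have e : r + 2 * (m + 1) * j = (r + 2 * m * j) + 2 * j := by ring
      rw [e, X_add (r + 2 * m * j) (2 * j), X_two_mul, Y_two_mul, ← hη]
      have e1 : X (r + 2 * m * j) * (2 * X j ^ 2 - η)
            + 2 * (Y (r + 2 * m * j) * (2 * (X j * Y j))) - -(η * s) * X r
          = -η * (X (r + 2 * m * j) - s * X r)
            + X j * (2 * X j * X (r + 2 * m * j)
              + 2 * (Y (r + 2 * m * j) * (2 * Y j))) := by ring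
      rw [e1]
      exact dvd_add (dvd_mul_of_dvd_right h1 _) (dvd_mul_right _ _)
    · have e : r + 2 * (m + 1) * j = (r + 2 * m * j) + 2 * j := by ring
      rw [e, Y_add (r + 2 * m * j) (2 * j), X_two_mul, Y_two_mul, ← hη]
      have e1 : X (r + 2 * m * j) * (2 * (X j * Y j))
            + Y (r + 2 * m * j) * (2 * X j ^ 2 - η) - -(η * s) * Y r
          = -η * (Y (r + 2 * m * j) - s * Y r)
            + X j * (2 * Y j * X (r + 2 * m * j)
              + 2 * X j * Y (r + 2 * m * j)) := by ring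
      rw [e1]
      exact dvd_add (dvd_mul_of_dvd_right h2 _) (dvd_mul_right _ _)

theorem mod_X_odd (j r m : ℕ) : ∃ s : ℤ, (s = 1 ∨ s = -1) ∧
    X j ∣ X (r + (2 * m + 1) * j) - s * (2 * (Y j * Y r)) ∧
    X j ∣ Y (r + (2 * m + 1) * j) - s * (Y j * X r) := by
  obtain ⟨s, hs, h1, h2⟩ := mod_X_even j (r + j) m
  have e : r + (2 * m + 1) * j = (r + j) + 2 * m * j := by ring
  refine ⟨s, hs, ?_, ?_⟩
  · rw [e]
    have e1 : X (r + j + 2 * m * j) - s * (2 * (Y j * Y r))
        = (X (r + j + 2 * m * j) - s * X (r + j)) + X j * (s * X r) := by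
      rw [X_add r j]
      ring
    rw [e1]
    exact dvd_add h1 (dvd_mul_right _ _)
  · rw [e]
    have e1 : Y (r + j + 2 * m * j) - s * (Y j * X r)
        = (Y (r + j + 2 * m * j) - s * Y (r + j)) + X j * (s * Y r) := by
      rw [Y_add r j]
      ring
    rw [e1]
    exact dvd_add h2 (dvd_mul_right _ _)

theorem Y_coprime_X {j t : ℕ} (hj : Odd j) (hc : Nat.Coprime j t) :
    IsCoprime (Y j) (X t) := by
  rcases Nat.eq_zero_or_pos t with ht | ht
  · subst ht
    have hj1 : j = 1 := by simpa using hc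
    rw [hj1, Y_one]
    exact isCoprime_one_left
  have hc2 : Nat.Coprime j (2 * t) :=
    Nat.Coprime.mul_right ((Nat.coprime_two_right).2 hj) hc
  obtain ⟨m, hm⟩ : ∃ m, j * m % (2 * t) = 1 := by
    obtain ⟨m, hm⟩ := Nat.exists_mul_mod_eq_one_of_coprime hc2 (by omega)
    exact ⟨m, hm.2⟩
  have hmd : j * m = (j * m / (2 * t)) * (2 * t) + 1 := by
    have := Nat.div_add_mod (j * m) (2 * t)
    rw [hm] at this
    linarith
  set v := j * m / (2 * t) with hv
  rw [Int.isCoprime_iff_gcd_eq_one]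
  set d := Int.gcd (Y j) (X t) with hd
  have hdY : (d : ℤ) ∣ Y j := Int.gcd_dvd_left ..
  have hdX : (d : ℤ) ∣ X t := Int.gcd_dvd_right ..
  have h1 : (d : ℤ) ∣ Y (j * m) := by
    have h2 := (mod_Y j 0 m).2
    rw [Y_zero, mul_zero, sub_zero, zero_add, mul_comm] at h2
    exact hdY.trans h2
  have h2 : (d : ℤ) ∣ Y (v * (2 * t)) := by
    have h3 := (mod_Y (2 * t) 0 v).2
    rw [Y_zero, mul_zero, sub_zero, zero_add] at h3
    refine Dvd.dvd.trans ?_ h3
    rw [Y_two_mul]
    exact dvd_mul_of_dvd_right (dvd_mul_of_dvd_left hdX _) _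
  have h3 : (d : ℤ) ∣ X (v * (2 * t)) := by
    rw [hmd, Y_add, X_one, Y_one, mul_one] at h1
    exact (dvd_add_left (dvd_mul_of_dvd_left h2 _)).1 h1
  have h4 : (d : ℤ) ∣ (-1) ^ (v * (2 * t)) := by
    rw [← pell (v * (2 * t))]
    exact dvd_sub (dvd_pow h3 (by norm_num)) (dvd_mul_of_dvd_right (dvd_pow h2 (by norm_num)) _)
  have h5 : (d : ℤ) ∣ 1 := by
    rcases sgn (v * (2 * t)) with h | h
    · rwa [h] at h4
    · rw [h] at h4
      exact (dvd_neg).1 h4
  have h6 : d ∣ 1 := by exact_mod_cast h5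
  exact Nat.dvd_one.1 h6

end Pool.Agent.Helper65.KT
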