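import Pool.Agent.Helper65.KT.Cg

/-!
Project KT, module PA: the point of the descent for type A (compare descA in
Helper65/KG/DA.lean; the algebra is the same up to signs).  x.im = Y_t u, A_j x = X_t q,
X_j x.re = X_t q + 2 Y_j Y_t u, s_j = (-1)^j:
X_j² N x = X_t² q² + 4 Y_j X_t Y_t u q - 2 s_j Y_t² u².
k even (mod_X_even): X_j w = X_r q + 2 Y_j Y_r u, z = ⟨w, Y_r u⟩,
X_j² (N z X_t Y_t - N x X_r Y_r) = s_r Y_(t-r) (q² X_r X_t + 2 s_j u² Y_r Y_t).
k odd (mod_X_odd, X_coprime_two_Y): X_j v = Y_r q + Y_j X_r u, z₁ = ⟨X_r u, v⟩,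
B_j z₁ = Y_r q, X_j² N z₁ = s_j X_r² u² - 4 Y_j X_r Y_r u q - 2 Y_r² q²,
X_j² (N z₁ X_t Y_t + N x X_r Y_r) = s_r X_(t-r) (s_j u² X_r Y_t + q² X_t Y_r);
z = star (z₁ * star e ^ j): z.im = -B_j z₁, A_j z = s_j z₁.re (e_mul_star), N z = s_j N z₁.
-/

namespace Pool.Agent.Helper65.KT

open Pool.Agent.Helper20 Pool.Agent.Helper20.MC

/-- From an integer identity to the inequality between absolute values. -/
private theorem PA_close {Nz Nx s s' Xj P Q err err' bd : ℤ} (hs : s = 1 ∨ s = -1)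
    (hP : 0 ≤ P) (hQ : 0 ≤ Q)
    (hid : Xj ^ 2 * (Nz * P - s * Nx * Q) = s' * (err + err'))
    (hs' : s' = 1 ∨ s' = -1) (hbd : |err + err'| ≤ bd) :
    Xj ^ 2 * (|Nz| * P) ≤ Xj ^ 2 * (|Nx| * Q) + bd := by
  have h0 : 0 ≤ Xj ^ 2 := sq_nonneg Xj
  have hs1 : |s| = 1 := by rcases hs with h | h <;> rw [h] <;> norm_num
  have hs1' : |s'| = 1 := by rcases hs' with h | h <;> rw [h] <;> norm_num
  have h1 : Xj ^ 2 * (|Nz| * P) = |s' * (err + err') + Xj ^ 2 * (s * Nx * Q)| := by
    have : s' * (err + err') + Xj ^ 2 * (s * Nx * Q) = Xj ^ 2 * (Nz * P) := by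
      rw [← hid]; ring
    rw [this, abs_mul, abs_mul, abs_of_nonneg h0, abs_of_nonneg hP]
  have h2 : |s' * (err + err') + Xj ^ 2 * (s * Nx * Q)| ≤
      |err + err'| + Xj ^ 2 * (|Nx| * Q) := by
    refine (abs_add_le _ _).trans ?_
    rw [abs_mul s', hs1', one_mul, abs_mul, abs_mul, abs_mul, hs1, abs_of_nonneg h0,
      abs_of_nonneg hQ, one_mul]
  rw [h1]
  linarith

/-- Absolute value of a sum with signs. -/
private theorem PA_sum {d a b s₁ s₂ : ℤ} (hd : 0 ≤ d) (ha : 0 ≤ a) (hb : 0 ≤ b)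
    (h₁ : s₁ = 1 ∨ s₁ = -1) (h₂ : s₂ = 1 ∨ s₂ = -1) :
    |d * (s₁ * a) + d * (s₂ * b)| ≤ d * (a + b) := by
  have e₁ : |s₁| = 1 := by rcases h₁ with h | h <;> rw [h] <;> norm_num
  have e₂ : |s₂| = 1 := by rcases h₂ with h | h <;> rw [h] <;> norm_num
  refine (abs_add_le _ _).trans ?_
  rw [abs_mul, abs_mul, abs_mul, abs_mul, e₁, e₂, abs_of_nonneg hd, abs_of_nonneg ha,
    abs_of_nonneg hb]
  apply le_of_eq
  ring

theorem PA_point {t j r k : ℕ} (hr : 1 ≤ r) (hrj : r < j)
    (ht : t = r + k * j) {x : ℤ√2} (hx : x ≠ 0) (hL : LA t j x) :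
    ∃ (z : ℤ√2) (u q : ℤ), z ≠ 0 ∧ LA r j z ∧ x.im = Y t * u ∧ A j x = X t * q ∧
      (X j ^ 2 * (|z.norm| * (X t * Y t)) ≤ X j ^ 2 * (|x.norm| * (X r * Y r)) +
          Y (t - r) * (q ^ 2 * X r * X t + 2 * u ^ 2 * Y r * Y t) ∨
        X j ^ 2 * (|z.norm| * (X t * Y t)) ≤ X j ^ 2 * (|x.norm| * (X r * Y r)) +
          X (t - r) * (u ^ 2 * X r * Y t + q ^ 2 * X t * Y r)) := by
  obtain ⟨⟨u, hu⟩, ⟨q, hq⟩⟩ := hL
  have hrt : r ≤ t := by rw [ht]; exact Nat.le_add_right _ _
  have ht1 : 1 ≤ t := hr.trans hrt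
  have hXj : 0 < X j := X_pos j
  have hXr : 0 < X r := X_pos r
  have hXt : 0 < X t := X_pos t
  have hYr : 0 < Y r := Y_pos hr
  have hYt : 0 < Y t := Y_pos ht1
  have hXd : 0 < X (t - r) := X_pos (t - r)
  have hYd : 0 ≤ Y (t - r) := Y_nonneg (t - r)
  have hpj := pell j
  have hXsub := X_sub hrt
  have hYsub := Y_sub hrt
  obtain ⟨sj, hsj⟩ : ∃ sj : ℤ, sj = (-1) ^ j := ⟨_, rfl⟩
  obtain ⟨sr', hsr⟩ : ∃ sr' : ℤ, sr' = (-1) ^ r := ⟨_, rfl⟩
  have hsj1 : sj = 1 ∨ sj = -1 := by rw [hsj]; exact sgn j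
  have hsr1 : sr' = 1 ∨ sr' = -1 := by rw [hsr]; exact sgn r
  have hsj2 : sj * sj = 1 := by rw [hsj]; exact sgn_sq j
  have hsr2 : sr' * sr' = 1 := by rw [hsr]; exact sgn_sq r
  rw [← hsj] at hpj
  rw [← hsr] at hXsub hYsub
  have hAx : X j * x.re = X t * q + 2 * (Y j * (Y t * u)) := by
    have h3 := A_eq j x
    rw [hq, hu] at h3
    linarith
  have hNx : X j ^ 2 * x.norm = X t ^ 2 * q ^ 2 + 4 * Y j * X t * Y t * u * q
      - 2 * sj * Y t ^ 2 * u ^ 2 := by
    rw [Zsqrtd.norm_def, hu]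
    have h3 : X j ^ 2 * (x.re * x.re - 2 * (Y t * u) * (Y t * u)) =
        (X j * x.re) ^ 2 - 2 * X j ^ 2 * (Y t * u) ^ 2 := by ring
    rw [h3, hAx]
    linear_combination (-(2 * (Y t * u) ^ 2)) * hpj
  have hxne : u = 0 → q = 0 → False := by
    intro hu0 hq0
    apply hx
    rw [hu0, hq0, mul_zero, mul_zero, mul_zero, mul_zero, add_zero] at hAx
    have h3 : x.re = 0 := by
      rcases mul_eq_zero.mp hAx with h | h
      · exact absurd h hXj.ne'
      · exact h
    apply Zsqrtd.ext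
    · exact h3
    · rw [hu, hu0, mul_zero]; rfl
  rcases Nat.even_or_odd' k with ⟨m, hm | hm⟩
  · -- even case
    subst hm
    obtain ⟨s, hs, hsX, hsY⟩ := mod_X_even j r m
    rw [← ht] at hsX hsY
    have hdvd : X j ∣ X r * q + 2 * (Y j * (Y r * u)) := by
      have h3 : X j ∣ X t * q + 2 * (Y j * (Y t * u)) := ⟨x.re, hAx.symm⟩
      have h4 : X j ∣ s * (X r * q + 2 * (Y j * (Y r * u))) := by
        have h5 := dvd_sub h3 (dvd_add (hsX.mul_right q)
          (hsY.mul_right (2 * (Y j * u))))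
        have h6 : X t * q + 2 * (Y j * (Y t * u)) - ((X t - s * X r) * q +
            (Y t - s * Y r) * (2 * (Y j * u))) =
            s * (X r * q + 2 * (Y j * (Y r * u))) := by ring
        rw [h6] at h5
        exact h5
      have h5 := h4.mul_left s
      have h6 : s * (s * (X r * q + 2 * (Y j * (Y r * u)))) =
          X r * q + 2 * (Y j * (Y r * u)) := by
        rcases hs with h | h <;> rw [h] <;> ring
      rw [h6] at h5
      exact h5
    obtain ⟨w, hw⟩ := hdvd
    have hA : A j (⟨w, Y r * u⟩ : ℤ√2) = X r * q := by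
      rw [A_eq]
      simp only
      linarith
    refine ⟨⟨w, Y r * u⟩, u, q, ?_, ⟨⟨u, rfl⟩, ⟨q, hA⟩⟩, hu, hq, Or.inl ?_⟩
    · intro hz
      have h3 : Y r * u = 0 := congrArg Zsqrtd.im hz
      have h4 : X r * q = 0 := by
        rw [← hA, hz]
        simp [A]
      have h5 : u = 0 := by
        rcases mul_eq_zero.mp h3 with h | h
        · exact absurd h hYr.ne'
        · exact h
      have h6 : q = 0 := by
        rcases mul_eq_zero.mp h4 with h | h
        · exact absurd h hXr.ne'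
        · exact h
      exact hxne h5 h6
    · have hNz : X j ^ 2 * (⟨w, Y r * u⟩ : ℤ√2).norm =
          X r ^ 2 * q ^ 2 + 4 * Y j * X r * Y r * u * q
            - 2 * sj * Y r ^ 2 * u ^ 2 := by
        rw [Zsqrtd.norm_def]
        simp only
        have h3 : X j ^ 2 * (w * w - 2 * (Y r * u) * (Y r * u)) =
            (X j * w) ^ 2 - 2 * X j ^ 2 * (Y r * u) ^ 2 := by ring
        rw [h3, ← hw]
        linear_combination (-(2 * (Y r * u) ^ 2)) * hpj
      obtain ⟨N, hN⟩ : ∃ N : ℤ, N = (⟨w, Y r * u⟩ : ℤ√2).norm := ⟨_, rfl⟩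
      rw [← hN] at hNz ⊢
      have hidZ : X j ^ 2 * (N * (X t * Y t) - 1 * x.norm * (X r * Y r)) =
          sr' * (Y (t - r) * (1 * (q ^ 2 * X r * X t)) +
            Y (t - r) * (sj * (2 * u ^ 2 * Y r * Y t))) := by
        have hd : Y t * X r - X t * Y r = sr' * Y (t - r) := by
          rw [hYsub]
          linear_combination (-(Y t * X r - X t * Y r)) * hsr2
        linear_combination (X t * Y t) * hNz - (X r * Y r) * hNx +
          (q ^ 2 * X r * X t + 2 * sj * u ^ 2 * Y r * Y t) * hd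
      refine PA_close (Or.inl rfl) (by positivity) (by positivity) hidZ hsr1 ?_
      exact PA_sum hYd (by positivity) (by positivity) (Or.inl rfl) hsj1
  · -- odd case
    subst hm
    obtain ⟨s, hs, hsX, hsY⟩ := mod_X_odd j r m
    rw [← ht] at hsX hsY
    have hcop : IsCoprime (X j) (2 * Y j) := X_coprime_two_Y j
    have hdvd : X j ∣ Y r * q + Y j * (X r * u) := by
      have h3 : X j ∣ X t * q + 2 * (Y j * (Y t * u)) := ⟨x.re, hAx.symm⟩
      have h4 : X j ∣ s * ((2 * Y j) * (Y r * q + Y j * (X r * u))) := by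
        have h5 := dvd_sub h3 (dvd_add (hsX.mul_right q)
          (hsY.mul_right (2 * (Y j * u))))
        have h6 : X t * q + 2 * (Y j * (Y t * u)) -
            ((X t - s * (2 * (Y j * Y r))) * q +
            (Y t - s * (Y j * X r)) * (2 * (Y j * u))) =
            s * ((2 * Y j) * (Y r * q + Y j * (X r * u))) := by ring
        rw [h6] at h5
        exact h5
      have h5 := h4.mul_left s
      have h6 : s * (s * ((2 * Y j) * (Y r * q + Y j * (X r * u)))) =
          (2 * Y j) * (Y r * q + Y j * (X r * u)) := by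
        rcases hs with h | h <;> rw [h] <;> ring
      rw [h6] at h5
      exact hcop.dvd_of_dvd_mul_left h5
    obtain ⟨v, hv⟩ := hdvd
    obtain ⟨z1, hz1⟩ : ∃ z1 : ℤ√2, z1 = ⟨X r * u, v⟩ := ⟨_, rfl⟩
    have hz1re : z1.re = X r * u := by rw [hz1]
    have hz1im : z1.im = v := by rw [hz1]
    have hB : B j z1 = Y r * q := by
      rw [B_eq, hz1re, hz1im]
      linarith
    obtain ⟨z, hz⟩ : ∃ z : ℤ√2, z = star (z1 * star e ^ j) := ⟨_, rfl⟩
    have hzim : z.im = -(Y r * q) := by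
      rw [hz, Zsqrtd.im_star]
      rw [← hB]
      rfl
    have hsgn : ((-1 : ℤ√2) ^ j) = ((sj : ℤ) : ℤ√2) := by
      rw [hsj]
      push_cast
      rfl
    have hAz : A j z = sj * (X r * u) := by
      unfold A
      have h3 : z * star e ^ j = ((sj : ℤ) : ℤ√2) * star z1 := by
        rw [hz, star_mul, star_pow, star_star]
        calc e ^ j * star z1 * star e ^ j = (e ^ j * star e ^ j) * star z1 := by ring
          _ = ((sj : ℤ) : ℤ√2) * star z1 := by rw [e_mul_star, hsgn]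
      rw [h3, Zsqrtd.re_mul]
      simp [hz1re]
    have hnz : z.norm = sj * z1.norm := by
      have h3 : (z.norm : ℤ√2) = ((sj * z1.norm : ℤ) : ℤ√2) := by
        rw [Zsqrtd.norm_eq_mul_conj, hz, star_star, star_mul, star_pow, star_star]
        push_cast
        rw [Zsqrtd.norm_eq_mul_conj, ← hsgn, ← e_mul_star]
        ring
      exact_mod_cast h3
    have habs : |z.norm| = |z1.norm| := by
      rw [hnz, abs_mul]
      rcases hsj1 with h | h <;> rw [h] <;> norm_num
    refine ⟨z, u, q, ?_, ⟨⟨-q, by rw [hzim]; ring⟩, ⟨sj * u, ?_⟩⟩, hu, hq, Or.inr ?_⟩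
    · intro hz0
      have h3 : Y r * q = 0 := by
        have h4 : z.im = 0 := by rw [hz0]; rfl
        rw [hzim] at h4
        linarith
      have h4 : X r * u = 0 := by
        have h5 : A j z = 0 := by rw [hz0]; simp [A]
        rw [hAz] at h5
        rcases mul_eq_zero.mp h5 with h | h
        · rcases hsj1 with h6 | h6 <;> rw [h6] at h <;> norm_num at h
        · exact h
      have h5 : u = 0 := by
        rcases mul_eq_zero.mp h4 with h | h
        · exact absurd h hXr.ne'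
        · exact h
      have h6 : q = 0 := by
        rcases mul_eq_zero.mp h3 with h | h
        · exact absurd h hYr.ne'
        · exact h
      exact hxne h5 h6
    · rw [hAz]; ring
    · rw [habs]
      have hNz : X j ^ 2 * z1.norm = sj * X r ^ 2 * u ^ 2 - 4 * Y j * X r * Y r * u * q
            - 2 * Y r ^ 2 * q ^ 2 := by
        rw [Zsqrtd.norm_def, hz1re, hz1im]
        have h3 : X j ^ 2 * (X r * u * (X r * u) - 2 * v * v) =
            X j ^ 2 * (X r * u) ^ 2 - 2 * (X j * v) ^ 2 := by ring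
        rw [h3, ← hv]
        linear_combination ((X r * u) ^ 2) * hpj
      have hidZ : X j ^ 2 * (z1.norm * (X t * Y t) - (-1) * x.norm * (X r * Y r)) =
          sr' * (X (t - r) * (sj * (u ^ 2 * X r * Y t)) +
            X (t - r) * (1 * (q ^ 2 * X t * Y r))) := by
        have hd : X t * X r - 2 * (Y t * Y r) = sr' * X (t - r) := by
          rw [hXsub]
          linear_combination (-(X t * X r - 2 * (Y t * Y r))) * hsr2
        linear_combination (X t * Y t) * hNz + (X r * Y r) * hNx +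
          (sj * u ^ 2 * X r * Y t + q ^ 2 * X t * Y r) * hd
      refine PA_close (Or.inr rfl) (by positivity) (by positivity) hidZ hsr1 ?_
      exact PA_sum hXd.le (by positivity) (by positivity) hsj1 (Or.inl rfl)

end Pool.Agent.Helper65.KT
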