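import Pool.Agent.Helper65.KT.Cg

/-!
Project KT, module PB: the point of the descent for type B (compare DB_point in
Helper65/KG/DB.lean; the proof is the same up to signs).  x.im = Y_t u, B_j x = X_t q,
Y_j w = X_j Y_r u - X_r q (by mod_Y), z = ⟨w, Y_r u⟩.  With s_j = (-1)^j:
Y_j² N x = s_j Y_t² u² - 2 X_j X_t Y_t u q + X_t² q², the same for z with r, hence
Y_j² (N z X_t Y_t - N x X_r Y_r) = (X_r Y_t - X_t Y_r) (q² X_r X_t - s_j u² Y_r Y_t) and
X_r Y_t - X_t Y_r = s_r Y_(t-r) (Y_sub).  Take absolute values.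
-/

namespace Pool.Agent.Helper65.KT

open Pool.Agent.Helper20 Pool.Agent.Helper20.MC

theorem PB_point {t j r k : ℕ} (hr : 1 ≤ r) (hrj : r < j)
    (ht : t = r + k * j) {x : ℤ√2} (hx : x ≠ 0) (hL : LB t j x) :
    ∃ (z : ℤ√2) (u q : ℤ), z ≠ 0 ∧ LB r j z ∧ x.im = Y t * u ∧ B j x = X t * q ∧
      Y j ^ 2 * (|z.norm| * (X t * Y t)) ≤ Y j ^ 2 * (|x.norm| * (X r * Y r)) +
        Y (t - r) * (q ^ 2 * X r * X t + u ^ 2 * Y r * Y t) := by
  obtain ⟨⟨u, hu⟩, ⟨q, hq⟩⟩ := hL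
  obtain ⟨h1, h2⟩ := mod_Y j r k
  rw [← ht] at h1 h2
  have hB := B_eq j x
  rw [hq, hu] at hB
  have hre : Y j * x.re = X j * (Y t * u) - X t * q := by linarith
  have hd1 : Y j ∣ X j ^ k * (X j * Y r * u - X r * q) := by
    have e1 : X j ^ k * (X j * Y r * u - X r * q) =
        Y j * x.re - (X j * u) * (Y t - X j ^ k * Y r) +
          q * (X t - X j ^ k * X r) := by
      rw [hre]; ring
    rw [e1]
    exact dvd_add (dvd_sub (dvd_mul_right _ _) (dvd_mul_of_dvd_right h2 _))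
      (dvd_mul_of_dvd_right h1 _)
  have hcop : IsCoprime (Y j) (X j ^ k) := ((XY_coprime j).symm).pow_right
  obtain ⟨w, hw⟩ := hcop.dvd_of_dvd_mul_left hd1
  have hYj : 0 < Y j := Y_pos (by omega)
  have hYr : 0 < Y r := Y_pos hr
  have hXr : 0 < X r := X_pos r
  have hXt : 0 < X t := X_pos t
  have hYt : 0 < Y t := Y_pos (by rw [ht]; omega)
  have hBz : B j (⟨w, Y r * u⟩ : ℤ√2) = X r * q := by
    rw [B_eq]
    show X j * (Y r * u) - Y j * w = X r * q
    linarith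
  have hrt : r ≤ t := by rw [ht]; exact Nat.le_add_right _ _
  have hΔ : X r * Y t - X t * Y r = (-1) ^ r * Y (t - r) := by
    rw [Y_sub hrt]
    linear_combination (-(Y t * X r - X t * Y r)) * sgn_sq r
  have hΔ0 : 0 ≤ Y (t - r) := Y_nonneg _
  refine ⟨⟨w, Y r * u⟩, u, q, ?_, ⟨⟨u, rfl⟩, ⟨q, hBz⟩⟩, hu, hq, ?_⟩
  · intro h0
    have hw0 : w = 0 := by simpa using congrArg Zsqrtd.re h0
    have hu0 : Y r * u = 0 := by simpa using congrArg Zsqrtd.im h0
    have hu1 : u = 0 := (mul_eq_zero.1 hu0).resolve_left hYr.ne'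
    have hq1 : q = 0 := by
      rw [hw0, hu1] at hw
      have : X r * q = 0 := by linarith
      exact (mul_eq_zero.1 this).resolve_left hXr.ne'
    apply hx
    apply Zsqrtd.ext
    · rw [hu1, hq1] at hre
      have : Y j * x.re = 0 := by rw [hre]; ring
      simpa using (mul_eq_zero.1 this).resolve_left hYj.ne'
    · rw [hu, hu1]; simp
  · obtain ⟨N, hN⟩ : ∃ N : ℤ, N = (⟨w, Y r * u⟩ : ℤ√2).norm := ⟨_, rfl⟩
    obtain ⟨M, hM⟩ : ∃ M : ℤ, M = x.norm := ⟨_, rfl⟩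
    have hp := pell j
    have hNz : Y j ^ 2 * N = (-1) ^ j * Y r ^ 2 * u ^ 2 - 2 * X j * X r * Y r * u * q +
        X r ^ 2 * q ^ 2 := by
      rw [hN, Zsqrtd.norm_def]
      show Y j ^ 2 * (w * w - 2 * (Y r * u) * (Y r * u)) = _
      have e2 : Y j ^ 2 * (w * w - 2 * (Y r * u) * (Y r * u)) =
          (Y j * w) ^ 2 - 2 * Y j ^ 2 * (Y r * u) ^ 2 := by ring
      rw [e2, ← hw]
      linear_combination (Y r ^ 2 * u ^ 2) * hp
    have hNx : Y j ^ 2 * M = (-1) ^ j * Y t ^ 2 * u ^ 2 - 2 * X j * X t * Y t * u * q +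
        X t ^ 2 * q ^ 2 := by
      rw [hM, Zsqrtd.norm_def]
      have e2 : Y j ^ 2 * (x.re * x.re - 2 * x.im * x.im) =
          (Y j * x.re) ^ 2 - 2 * Y j ^ 2 * x.im ^ 2 := by ring
      rw [e2, hre, hu]
      linear_combination (Y t ^ 2 * u ^ 2) * hp
    rw [← hN, ← hM]
    have hid : Y j ^ 2 * (N * (X t * Y t)) = Y j ^ 2 * (M * (X r * Y r)) +
        (-1) ^ r * Y (t - r) * (q ^ 2 * X r * X t - (-1) ^ j * u ^ 2 * Y r * Y t) := by
      rw [← hΔ]
      linear_combination (X t * Y t) * hNz - (X r * Y r) * hNx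
    have hP : 0 ≤ q ^ 2 * X r * X t := by positivity
    have hQ : 0 ≤ u ^ 2 * Y r * Y t := by positivity
    have habs : |(-1) ^ r * Y (t - r) * (q ^ 2 * X r * X t - (-1) ^ j * u ^ 2 * Y r * Y t)| ≤
        Y (t - r) * (q ^ 2 * X r * X t + u ^ 2 * Y r * Y t) := by
      rw [abs_mul, abs_mul, abs_of_nonneg hΔ0, abs_pow, abs_neg, abs_one, one_pow, one_mul]
      apply mul_le_mul_of_nonneg_left _ hΔ0
      rw [abs_le]
      rcases sgn j with h | h <;> rw [h] <;> constructor <;> linarith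
    have hA : Y j ^ 2 * (|N| * (X t * Y t)) = |Y j ^ 2 * (N * (X t * Y t))| := by
      rw [abs_mul, abs_mul, abs_of_pos (by positivity : 0 < Y j ^ 2),
        abs_of_pos (by positivity : 0 < X t * Y t)]
    have hC : Y j ^ 2 * (|M| * (X r * Y r)) = |Y j ^ 2 * (M * (X r * Y r))| := by
      rw [abs_mul, abs_mul, abs_of_pos (by positivity : 0 < Y j ^ 2),
        abs_of_pos (by positivity : 0 < X r * Y r)]
    rw [hA, hC, hid]
    refine (abs_add_le _ _).trans ?_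
    linarith

end Pool.Agent.Helper65.KT
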