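import Pool.Agent.Helper65.KT.Bd
import Pool.Agent.Helper65.KT.PB
import Pool.Agent.Helper65.KT.PA

/-!
Project KT, module DE: the descents for r ≥ 5 (crude constants; compare DB_real, descB, descA in
Helper65/KG).  n = |N x|, E = ε^(2j), F = 1681/1024 * 4^r ≤ X_r² (X_five, X_two_le, induction from 5),
2 Y_r² ≥ X_r² - 1.
B: u² Y_t² = x.im² ≤ n E / 2 ≤ 5 n Y_j² (im_bd, ep_le_Y, Y_j ≥ 1), q² X_t² ≤ 5 n Y_j²;
X_t = X_(t-r) X_r + 2 Y_(t-r) Y_r, Y_t = X_(t-r) Y_r + Y_(t-r) X_r (X_add, Y_add), so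
2 Y_(t-r) Y_r ≤ X_t, Y_(t-r) X_r ≤ Y_t, and the error is at most
5 n Y_j² (X_r / (2 Y_r) + Y_r / X_r) ≤ 40/F n Y_j² X_r Y_r (it is about 10 / X_r²).
A: q² X_t² ≤ n E ≤ 6 n X_j², 2 u² Y_t² ≤ 6 n X_j² (A_bd, im_bd, ep_le_X), also
X_(t-r) Y_r ≤ Y_t, X_(t-r) X_r ≤ X_t: both errors are about 12 n X_j² X_r Y_r / X_r².
-/

namespace Pool.Agent.Helper65.KT

open Pool.Agent.Helper20 Pool.Agent.Helper20.MC

private theorem DE_pow {r : ℕ} (hr : 5 ≤ r) : (1681 / 1024 * 4 ^ r : ℝ) ≤ (X r : ℝ) ^ 2 := by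
  induction r, hr using Nat.le_induction with
  | base =>
    rw [X_five.1]
    norm_num
  | succ r hr ih =>
    have h1 : (2 : ℝ) * X r ≤ X (r + 1) := by exact_mod_cast X_two_le (show 1 ≤ r by omega)
    have h2 : (0 : ℝ) < X r := by exact_mod_cast X_pos r
    have h3 : ((2 : ℝ) * X r) ^ 2 ≤ (X (r + 1) : ℝ) ^ 2 := pow_le_pow_left₀ (by positivity) h1 2
    calc (1681 / 1024 * 4 ^ (r + 1) : ℝ) = 4 * (1681 / 1024 * 4 ^ r) := by ring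
      _ ≤ 4 * (X r : ℝ) ^ 2 := by linarith
      _ = ((2 : ℝ) * X r) ^ 2 := by ring
      _ ≤ _ := h3

private theorem DE_close {P Q F A2 B2 J T S : ℝ} (hJ : 0 < J) (hF : 0 < F) (hP0 : 0 ≤ P)
    (hQ0 : 0 ≤ Q) (hP : P * A2 ≤ 6 * (J * S)) (hQ : Q * B2 ≤ 6 * (J * S)) (hA : 3 / 4 * F ≤ A2)
    (hB : F ≤ B2) (hmain : J * T ≤ J * S + (P + Q)) : T ≤ S * (1 + 40 / F) := by
  have h1 : P * (3 / 4 * F) ≤ 6 * (J * S) := (mul_le_mul_of_nonneg_left hA hP0).trans hP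
  have h2 : Q * F ≤ 6 * (J * S) := (mul_le_mul_of_nonneg_left hB hQ0).trans hQ
  have h3 : 0 ≤ J * S := by
    have : 0 ≤ Q * F := mul_nonneg hQ0 hF.le
    linarith
  have h4 : (P + Q) * F ≤ 40 * (J * S) := by nlinarith
  have h5 : P + Q ≤ J * S * (40 / F) := by
    rw [mul_div_assoc', le_div_iff₀ hF]
    linarith
  refine le_of_mul_le_mul_left ?_ hJ
  calc J * T ≤ J * S + (P + Q) := hmain
    _ ≤ J * S + J * S * (40 / F) := by linarith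
    _ = J * (S * (1 + 40 / F)) := by ring

/-- sizes common to both types -/
private theorem DE_sizes {t r : ℕ} (hr : 5 ≤ r) (hrt : r ≤ t) :
    (0 : ℝ) < X r ∧ (0 : ℝ) < Y r ∧ (0 : ℝ) < X t ∧ (0 : ℝ) < Y t ∧ (0 : ℝ) ≤ X (t - r) ∧
      (0 : ℝ) ≤ Y (t - r) ∧
      (X t : ℝ) = X (t - r) * X r + 2 * (Y (t - r) * Y r) ∧
      (Y t : ℝ) = X (t - r) * Y r + Y (t - r) * X r ∧
      (0 : ℝ) < 1681 / 1024 * 4 ^ r ∧
      3 / 4 * (1681 / 1024 * 4 ^ r : ℝ) ≤ 2 * (Y r : ℝ) ^ 2 := by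
  refine ⟨by exact_mod_cast X_pos r, by exact_mod_cast Y_pos (show 1 ≤ r by omega),
    by exact_mod_cast X_pos t, by exact_mod_cast Y_pos (show 1 ≤ t by omega),
    by exact_mod_cast (X_pos (t - r)).le, by exact_mod_cast Y_nonneg (t - r), ?_, ?_,
    by positivity, ?_⟩
  · have h := X_add (t - r) r
    rw [Nat.sub_add_cancel hrt] at h
    exact_mod_cast h
  · have h := Y_add (t - r) r
    rw [Nat.sub_add_cancel hrt] at h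
    exact_mod_cast h
  · have h1 := DE_pow hr
    have h2 : (X r : ℝ) ^ 2 - 2 * (Y r : ℝ) ^ 2 = (-1) ^ r := by exact_mod_cast pell r
    have h3 : ((-1 : ℝ)) ^ r ≤ 1 := by
      rcases neg_one_pow_eq_or ℝ r with h | h <;> rw [h] <;> norm_num
    have h4 : (1024 : ℝ) ≤ 4 ^ r := by
      calc (1024 : ℝ) = 4 ^ 5 := by norm_num
        _ ≤ 4 ^ r := pow_le_pow_right₀ (by norm_num) hr
    linarith

theorem descB {t j r k : ℕ} (hr : 5 ≤ r) (hrj : r < j) (hk : 1 ≤ k)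
    (ht : t = r + k * j) {x : ℤ√2} (hx : x ≠ 0) (hL : LB t j x)
    (h1 : |ps x| ≤ |ph x|) (h2 : |ph x| ≤ ep ^ (2 * j) * |ps x|) :
    ∃ z : ℤ√2, z ≠ 0 ∧ LB r j z ∧
      |(z.norm : ℝ)| * ((X t : ℝ) * Y t) ≤
        |(x.norm : ℝ)| * ((X r : ℝ) * Y r) * (1 + 40 / (1681 / 1024 * 4 ^ r)) := by
  obtain ⟨z, u, q, hz, hLz, hu, hq, hid⟩ := PB_point (show 1 ≤ r by omega) hrj ht hx hL
  refine ⟨z, hz, hLz, ?_⟩
  obtain ⟨hXr, hYr, hXt, hYt, hX0, hY0, hX, hY, hF, hY2⟩ :=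
    DE_sizes (t := t) hr (by rw [ht]; exact Nat.le_add_right _ _)
  have hYj1 : (1 : ℝ) ≤ Y j := by
    have := Y_pos (show 1 ≤ j by omega)
    exact_mod_cast this
  have hYj2 : (1 : ℝ) ≤ (Y j : ℝ) ^ 2 := one_le_pow₀ hYj1
  have hn0 : 0 ≤ |(x.norm : ℝ)| := abs_nonneg _
  have hE : |(x.norm : ℝ)| * ep ^ (2 * j) ≤ 10 * |(x.norm : ℝ)| * (Y j : ℝ) ^ 2 := by
    have h3 := mul_le_mul_of_nonneg_left (ep_le_Y j) hn0
    have h4 := mul_le_mul_of_nonneg_left hYj2 hn0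
    nlinarith
  have hub : (u : ℝ) ^ 2 * (Y t : ℝ) ^ 2 ≤ 5 * |(x.norm : ℝ)| * (Y j : ℝ) ^ 2 := by
    have h3 := im_bd h1 h2
    rw [hu, Int.cast_mul] at h3
    have h4 : ((Y t : ℝ) * (u : ℝ)) ^ 2 = (u : ℝ) ^ 2 * (Y t : ℝ) ^ 2 := by ring
    rw [h4] at h3
    linarith
  have hqb : (q : ℝ) ^ 2 * (X t : ℝ) ^ 2 ≤ 5 * |(x.norm : ℝ)| * (Y j : ℝ) ^ 2 := by
    have h3 := B_bd h1 h2
    rw [hq, Int.cast_mul] at h3
    have h4 : ((X t : ℝ) * (q : ℝ)) ^ 2 = (q : ℝ) ^ 2 * (X t : ℝ) ^ 2 := by ring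
    rw [h4] at h3
    linarith
  have hid' : (Y j : ℝ) ^ 2 * (|(z.norm : ℝ)| * ((X t : ℝ) * Y t)) ≤
      (Y j : ℝ) ^ 2 * (|(x.norm : ℝ)| * ((X r : ℝ) * Y r)) +
        (Y (t - r) : ℝ) * ((q : ℝ) ^ 2 * X r * X t + (u : ℝ) ^ 2 * Y r * Y t) := by
    exact_mod_cast hid
  have hXY : (0 : ℝ) < (X r : ℝ) * Y r := mul_pos hXr hYr
  have hW0 : 0 ≤ (Y j : ℝ) ^ 2 * (|(x.norm : ℝ)| * ((X r : ℝ) * Y r)) := by positivity
  refine DE_close (P := (Y (t - r) : ℝ) * ((q : ℝ) ^ 2 * X r * X t))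
    (Q := (Y (t - r) : ℝ) * ((u : ℝ) ^ 2 * Y r * Y t)) (J := (Y j : ℝ) ^ 2)
    (A2 := 2 * (Y r : ℝ) ^ 2) (B2 := (X r : ℝ) ^ 2) (by positivity) hF
    (by positivity) (by positivity) ?_ ?_ hY2 (DE_pow hr) (by linarith)
  · have h3 : 2 * ((Y (t - r) : ℝ) * Y r) ≤ X t := by
      have : (0 : ℝ) ≤ X (t - r) * X r := by positivity
      linarith
    calc (Y (t - r) : ℝ) * ((q : ℝ) ^ 2 * X r * X t) * (2 * (Y r : ℝ) ^ 2)
        = ((q : ℝ) ^ 2 * X r * X t * Y r) * (2 * ((Y (t - r) : ℝ) * Y r)) := by ring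
      _ ≤ ((q : ℝ) ^ 2 * X r * X t * Y r) * X t := mul_le_mul_of_nonneg_left h3 (by positivity)
      _ = ((q : ℝ) ^ 2 * (X t : ℝ) ^ 2) * ((X r : ℝ) * Y r) := by ring
      _ ≤ (5 * |(x.norm : ℝ)| * (Y j : ℝ) ^ 2) * ((X r : ℝ) * Y r) :=
        mul_le_mul_of_nonneg_right hqb hXY.le
      _ = 5 * ((Y j : ℝ) ^ 2 * (|(x.norm : ℝ)| * ((X r : ℝ) * Y r))) := by ring
      _ ≤ 6 * ((Y j : ℝ) ^ 2 * (|(x.norm : ℝ)| * ((X r : ℝ) * Y r))) := by linarith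
  · have h3 : (Y (t - r) : ℝ) * X r ≤ Y t := by
      have : (0 : ℝ) ≤ X (t - r) * Y r := by positivity
      linarith
    calc (Y (t - r) : ℝ) * ((u : ℝ) ^ 2 * Y r * Y t) * (X r : ℝ) ^ 2
        = ((u : ℝ) ^ 2 * Y r * Y t * X r) * ((Y (t - r) : ℝ) * X r) := by ring
      _ ≤ ((u : ℝ) ^ 2 * Y r * Y t * X r) * Y t := mul_le_mul_of_nonneg_left h3 (by positivity)
      _ = ((u : ℝ) ^ 2 * (Y t : ℝ) ^ 2) * ((X r : ℝ) * Y r) := by ring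
      _ ≤ (5 * |(x.norm : ℝ)| * (Y j : ℝ) ^ 2) * ((X r : ℝ) * Y r) :=
        mul_le_mul_of_nonneg_right hub hXY.le
      _ = 5 * ((Y j : ℝ) ^ 2 * (|(x.norm : ℝ)| * ((X r : ℝ) * Y r))) := by ring
      _ ≤ 6 * ((Y j : ℝ) ^ 2 * (|(x.norm : ℝ)| * ((X r : ℝ) * Y r))) := by linarith

theorem descA {t j r k : ℕ} (hr : 5 ≤ r) (hrj : r < j) (hk : 1 ≤ k)
    (ht : t = r + k * j) {x : ℤ√2} (hx : x ≠ 0) (hL : LA t j x)
    (h1 : |ps x| ≤ |ph x|) (h2 : |ph x| ≤ ep ^ (2 * j) * |ps x|) :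
    ∃ z : ℤ√2, z ≠ 0 ∧ LA r j z ∧
      |(z.norm : ℝ)| * ((X t : ℝ) * Y t) ≤
        |(x.norm : ℝ)| * ((X r : ℝ) * Y r) * (1 + 40 / (1681 / 1024 * 4 ^ r)) := by
  obtain ⟨z, u, q, hz, hLz, hu, hq, hid⟩ := PA_point (show 1 ≤ r by omega) hrj ht hx hL
  refine ⟨z, hz, hLz, ?_⟩
  obtain ⟨hXr, hYr, hXt, hYt, hX0, hY0, hX, hY, hF, hY2⟩ :=
    DE_sizes (t := t) hr (by rw [ht]; exact Nat.le_add_right _ _)
  have hXj1 : (1 : ℝ) ≤ X j := by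
    have := X_pos j
    exact_mod_cast this
  have hXj2 : (1 : ℝ) ≤ (X j : ℝ) ^ 2 := one_le_pow₀ hXj1
  have hn0 : 0 ≤ |(x.norm : ℝ)| := abs_nonneg _
  have hE : |(x.norm : ℝ)| * ep ^ (2 * j) ≤ 6 * |(x.norm : ℝ)| * (X j : ℝ) ^ 2 := by
    have h3 := mul_le_mul_of_nonneg_left (ep_le_X j) hn0
    have h4 := mul_le_mul_of_nonneg_left hXj2 hn0
    nlinarith
  have hub : 2 * (u : ℝ) ^ 2 * (Y t : ℝ) ^ 2 ≤ 6 * |(x.norm : ℝ)| * (X j : ℝ) ^ 2 := by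
    have h3 := im_bd h1 h2
    rw [hu, Int.cast_mul] at h3
    have h4 : ((Y t : ℝ) * (u : ℝ)) ^ 2 = (u : ℝ) ^ 2 * (Y t : ℝ) ^ 2 := by ring
    rw [h4] at h3
    linarith
  have hqb : (q : ℝ) ^ 2 * (X t : ℝ) ^ 2 ≤ 6 * |(x.norm : ℝ)| * (X j : ℝ) ^ 2 := by
    have h3 := A_bd h1 h2
    rw [hq, Int.cast_mul] at h3
    have h4 : ((X t : ℝ) * (q : ℝ)) ^ 2 = (q : ℝ) ^ 2 * (X t : ℝ) ^ 2 := by ring
    rw [h4] at h3
    linarith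
  have hXY : (0 : ℝ) < (X r : ℝ) * Y r := mul_pos hXr hYr
  have e6 : (6 * |(x.norm : ℝ)| * (X j : ℝ) ^ 2) * ((X r : ℝ) * Y r) =
      6 * ((X j : ℝ) ^ 2 * (|(x.norm : ℝ)| * ((X r : ℝ) * Y r))) := by ring
  rcases hid with hid | hid
  · have hid' : (X j : ℝ) ^ 2 * (|(z.norm : ℝ)| * ((X t : ℝ) * Y t)) ≤
        (X j : ℝ) ^ 2 * (|(x.norm : ℝ)| * ((X r : ℝ) * Y r)) +
          (Y (t - r) : ℝ) * ((q : ℝ) ^ 2 * X r * X t + 2 * (u : ℝ) ^ 2 * Y r * Y t) := by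
      exact_mod_cast hid
    refine DE_close (P := (Y (t - r) : ℝ) * ((q : ℝ) ^ 2 * X r * X t))
      (Q := (Y (t - r) : ℝ) * (2 * (u : ℝ) ^ 2 * Y r * Y t)) (J := (X j : ℝ) ^ 2)
      (A2 := 2 * (Y r : ℝ) ^ 2) (B2 := (X r : ℝ) ^ 2) (by positivity) hF
      (by positivity) (by positivity) ?_ ?_ hY2 (DE_pow hr) (by linarith)
    · have h3 : 2 * ((Y (t - r) : ℝ) * Y r) ≤ X t := by
        have : (0 : ℝ) ≤ X (t - r) * X r := by positivity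
        linarith
      calc (Y (t - r) : ℝ) * ((q : ℝ) ^ 2 * X r * X t) * (2 * (Y r : ℝ) ^ 2)
          = ((q : ℝ) ^ 2 * X r * X t * Y r) * (2 * ((Y (t - r) : ℝ) * Y r)) := by ring
        _ ≤ ((q : ℝ) ^ 2 * X r * X t * Y r) * X t := mul_le_mul_of_nonneg_left h3 (by positivity)
        _ = ((q : ℝ) ^ 2 * (X t : ℝ) ^ 2) * ((X r : ℝ) * Y r) := by ring
        _ ≤ (6 * |(x.norm : ℝ)| * (X j : ℝ) ^ 2) * ((X r : ℝ) * Y r) :=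
          mul_le_mul_of_nonneg_right hqb hXY.le
        _ = _ := e6
    · have h3 : (Y (t - r) : ℝ) * X r ≤ Y t := by
        have : (0 : ℝ) ≤ X (t - r) * Y r := by positivity
        linarith
      calc (Y (t - r) : ℝ) * (2 * (u : ℝ) ^ 2 * Y r * Y t) * (X r : ℝ) ^ 2
          = (2 * (u : ℝ) ^ 2 * Y r * Y t * X r) * ((Y (t - r) : ℝ) * X r) := by ring
        _ ≤ (2 * (u : ℝ) ^ 2 * Y r * Y t * X r) * Y t :=
          mul_le_mul_of_nonneg_left h3 (by positivity)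
        _ = (2 * (u : ℝ) ^ 2 * (Y t : ℝ) ^ 2) * ((X r : ℝ) * Y r) := by ring
        _ ≤ (6 * |(x.norm : ℝ)| * (X j : ℝ) ^ 2) * ((X r : ℝ) * Y r) :=
          mul_le_mul_of_nonneg_right hub hXY.le
        _ = _ := e6
  · have hid' : (X j : ℝ) ^ 2 * (|(z.norm : ℝ)| * ((X t : ℝ) * Y t)) ≤
        (X j : ℝ) ^ 2 * (|(x.norm : ℝ)| * ((X r : ℝ) * Y r)) +
          (X (t - r) : ℝ) * ((u : ℝ) ^ 2 * X r * Y t + (q : ℝ) ^ 2 * X t * Y r) := by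
      exact_mod_cast hid
    refine DE_close (P := (X (t - r) : ℝ) * ((u : ℝ) ^ 2 * X r * Y t))
      (Q := (X (t - r) : ℝ) * ((q : ℝ) ^ 2 * X t * Y r)) (J := (X j : ℝ) ^ 2)
      (A2 := 2 * (Y r : ℝ) ^ 2) (B2 := (X r : ℝ) ^ 2) (by positivity) hF
      (by positivity) (by positivity) ?_ ?_ hY2 (DE_pow hr) (by linarith)
    · have h3 : (X (t - r) : ℝ) * Y r ≤ Y t := by
        have : (0 : ℝ) ≤ Y (t - r) * X r := by positivity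
        linarith
      calc (X (t - r) : ℝ) * ((u : ℝ) ^ 2 * X r * Y t) * (2 * (Y r : ℝ) ^ 2)
          = (2 * (u : ℝ) ^ 2 * X r * Y t * Y r) * ((X (t - r) : ℝ) * Y r) := by ring
        _ ≤ (2 * (u : ℝ) ^ 2 * X r * Y t * Y r) * Y t :=
          mul_le_mul_of_nonneg_left h3 (by positivity)
        _ = (2 * (u : ℝ) ^ 2 * (Y t : ℝ) ^ 2) * ((X r : ℝ) * Y r) := by ring
        _ ≤ (6 * |(x.norm : ℝ)| * (X j : ℝ) ^ 2) * ((X r : ℝ) * Y r) :=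
          mul_le_mul_of_nonneg_right hub hXY.le
        _ = _ := e6
    · have h3 : (X (t - r) : ℝ) * X r ≤ X t := by
        have : (0 : ℝ) ≤ 2 * (Y (t - r) * Y r) := by positivity
        linarith
      calc (X (t - r) : ℝ) * ((q : ℝ) ^ 2 * X t * Y r) * (X r : ℝ) ^ 2
          = ((q : ℝ) ^ 2 * X t * Y r * X r) * ((X (t - r) : ℝ) * X r) := by ring
        _ ≤ ((q : ℝ) ^ 2 * X t * Y r * X r) * X t := mul_le_mul_of_nonneg_left h3 (by positivity)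
        _ = ((q : ℝ) ^ 2 * (X t : ℝ) ^ 2) * ((X r : ℝ) * Y r) := by ring
        _ ≤ (6 * |(x.norm : ℝ)| * (X j : ℝ) ^ 2) * ((X r : ℝ) * Y r) :=
          mul_le_mul_of_nonneg_right hqb hXY.le
        _ = _ := e6

end Pool.Agent.Helper65.KT
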