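import Mathlib
import Pool.Agent.Helper20.MC.Defs

/-!
Project KT (MP_277ac5_nt): cubic growth for ℚ(√2) with all quotients at most 3.
Definitions and Pell facts.  e = 1 + √2 (norm -1), e ^ n = X n + Y n √2,
B j x = im (x * star e ^ j), A j x = re (x * star e ^ j).  The continued fractions run in
Red 3 (G t) of project MC: √8 G t = √2 Y (2 t), G t = X t Y t.
-/

namespace Pool.Agent.Helper65.KT

open Pool.Agent.Helper20 Pool.Agent.Helper20.MC

/-- e = 1 + √2. -/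
def e : ℤ√2 := ⟨1, 1⟩

/-- Real part of e ^ n. -/
def X (n : ℕ) : ℤ := (e ^ n).re

/-- Imaginary part of e ^ n. -/
def Y (n : ℕ) : ℤ := (e ^ n).im

/-- B_j (x). -/
def B (j : ℕ) (x : ℤ√2) : ℤ := (x * star e ^ j).im

/-- A_j (x). -/
def A (j : ℕ) (x : ℤ√2) : ℤ := (x * star e ^ j).re

/-- Lattice of type B. -/
def LB (t j : ℕ) (x : ℤ√2) : Prop := Y t ∣ x.im ∧ X t ∣ B j x

/-- Lattice of type A. -/
def LA (t j : ℕ) (x : ℤ√2) : Prop := Y t ∣ x.im ∧ X t ∣ A j x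

/-- The level X t Y t as a natural number. -/
def G (t : ℕ) : ℕ := (X t * Y t).toNat

/-- The number of the pair p (with √8 G t) is y2 / y1 for a basis y1, y2 of LB t j. -/
def Rel (t j : ℕ) (p : ℤ × ℤ) (σ : ℤ) (y1 y2 : ℤ√2) : Prop :=
  (σ = 1 ∨ σ = -1) ∧ p.2 = 2 * σ * y1.norm ∧
    (⟨p.1, Y (2 * t)⟩ : ℤ√2) = ((2 * σ : ℤ) : ℤ√2) * (y2 * star y1) ∧
    LB t j y1 ∧ LB t j y2 ∧
    ∀ x : ℤ√2, LB t j x → ∃ m n : ℤ, x = (m : ℤ√2) * y1 + (n : ℤ√2) * y2

/-- j has a small inverse modulo t up to sign. -/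
def Good (t j : ℕ) : Prop :=
  ∃ s : ℕ, 1 ≤ s ∧ 5 * s ≤ t ∧ ((t : ℤ) ∣ (s : ℤ) * j - 1 ∨ (t : ℤ) ∣ (s : ℤ) * j + 1)

/-- √2. -/
noncomputable def sr : ℝ := Real.sqrt 2

/-- ε = 1 + √2. -/
noncomputable def ep : ℝ := 1 + sr

/-- First real embedding. -/
noncomputable def ph (x : ℤ√2) : ℝ := x.re + x.im * sr

/-- Second real embedding. -/
noncomputable def ps (x : ℤ√2) : ℝ := x.re - x.im * sr

/-! ### Pell facts -/

theorem X_zero : X 0 = 1 := by simp [X]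

theorem Y_zero : Y 0 = 0 := by simp [Y]

theorem X_one : X 1 = 1 := by simp [X, e]

theorem Y_one : Y 1 = 1 := by simp [Y, e]

theorem e_pow (n : ℕ) : e ^ n = ⟨X n, Y n⟩ := by
  apply Zsqrtd.ext <;> simp [X, Y]

theorem X_add (m n : ℕ) : X (m + n) = X m * X n + 2 * (Y m * Y n) := by
  unfold X Y
  rw [pow_add, Zsqrtd.re_mul]
  ring

theorem Y_add (m n : ℕ) : Y (m + n) = X m * Y n + Y m * X n := by
  unfold X Y
  rw [pow_add, Zsqrtd.im_mul]

theorem X_succ (n : ℕ) : X (n + 1) = X n + 2 * Y n := by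
  rw [X_add, X_one, Y_one]
  ring

theorem Y_succ (n : ℕ) : Y (n + 1) = Y n + X n := by
  rw [Y_add, X_one, Y_one]
  ring

theorem pell (n : ℕ) : X n ^ 2 - 2 * Y n ^ 2 = (-1) ^ n := by
  induction n with
  | zero => simp [X_zero, Y_zero]
  | succ n ih =>
    rw [X_succ, Y_succ, pow_succ (-1 : ℤ) n, ← ih]
    ring

theorem sgn (n : ℕ) : ((-1 : ℤ) ^ n = 1 ∨ (-1 : ℤ) ^ n = -1) := neg_one_pow_eq_or ℤ n

theorem sgn_sq (n : ℕ) : ((-1 : ℤ) ^ n) * (-1) ^ n = 1 := by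
  rcases sgn n with h | h <;> rw [h] <;> norm_num

theorem XY_nonneg (n : ℕ) : 0 < X n ∧ 0 ≤ Y n := by
  induction n with
  | zero => simp [X_zero, Y_zero]
  | succ n ih =>
    obtain ⟨h1, h2⟩ := ih
    rw [X_succ, Y_succ]
    constructor <;> linarith

theorem X_pos (n : ℕ) : 0 < X n := (XY_nonneg n).1

theorem Y_nonneg (n : ℕ) : 0 ≤ Y n := (XY_nonneg n).2

theorem Y_le_X (n : ℕ) : Y n ≤ X n := by
  induction n with
  | zero => simp [X_zero, Y_zero]
  | succ n ih =>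
    have := Y_nonneg n
    rw [X_succ, Y_succ]
    linarith

theorem Y_two_le (n : ℕ) : 2 * Y n ≤ Y (n + 1) := by
  have := Y_le_X n
  rw [Y_succ]
  linarith

theorem Y_lt_succ (n : ℕ) : Y n < Y (n + 1) := by
  have := X_pos n
  rw [Y_succ]
  linarith

theorem Y_strictMono : StrictMono Y := strictMono_nat_of_lt_succ Y_lt_succ

theorem Y_pos {n : ℕ} (hn : 1 ≤ n) : 0 < Y n := by
  have h := Y_strictMono (show 0 < n by omega)
  rwa [Y_zero] at h

theorem X_le_two_Y {n : ℕ} (hn : 1 ≤ n) : X n ≤ 2 * Y n := by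
  obtain ⟨m, rfl⟩ : ∃ m, n = m + 1 := ⟨n - 1, by omega⟩
  have := X_pos m
  rw [X_succ, Y_succ]
  linarith

theorem X_two_le {n : ℕ} (hn : 1 ≤ n) : 2 * X n ≤ X (n + 1) := by
  have := X_le_two_Y hn
  rw [X_succ]
  linarith

/-- X is strictly increasing from 1 on. -/
theorem X_lt {m n : ℕ} (hm : 1 ≤ m) (h : m < n) : X m < X n := by
  induction n, h using Nat.le_induction with
  | base =>
    have := Y_pos hm
    rw [X_succ]
    linarith
  | succ n hn ih =>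
    have := Y_pos (show 1 ≤ n by omega)
    rw [X_succ]
    linarith

theorem two_pow_le_Y (n : ℕ) : (2 : ℤ) ^ n ≤ Y (n + 1) := by
  induction n with
  | zero => simp [Y_one]
  | succ n ih =>
    have := Y_two_le (n + 1)
    rw [pow_succ]
    linarith

theorem X_five : X 5 = 41 ∧ Y 5 = 29 := by
  constructor
  · rw [show (5 : ℕ) = ((((0 + 1) + 1) + 1) + 1) + 1 by rfl]
    simp only [X_succ, Y_succ, X_zero, Y_zero]
    norm_num
  · rw [show (5 : ℕ) = ((((0 + 1) + 1) + 1) + 1) + 1 by rfl]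
    simp only [X_succ, Y_succ, X_zero, Y_zero]
    norm_num

theorem XY_coprime (n : ℕ) : IsCoprime (X n) (Y n) :=
  ⟨(-1) ^ n * X n, -((-1) ^ n * 2 * Y n), by
    have h1 := pell n
    have h2 := sgn_sq n
    linear_combination ((-1) ^ n) * h1 + h2⟩

/-- X n is odd, hence prime to 2 Y n. -/
theorem X_coprime_two_Y (n : ℕ) : IsCoprime (X n) (2 * Y n) :=
  ⟨(-1) ^ n * X n, -((-1) ^ n * Y n), by
    have h1 := pell n
    have h2 := sgn_sq n
    linear_combination ((-1) ^ n) * h1 + h2⟩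

theorem X_two_mul (n : ℕ) : X (2 * n) = 2 * X n ^ 2 - (-1) ^ n := by
  rw [two_mul, X_add]
  have := pell n
  linarith

theorem X_two_mul' (n : ℕ) : X (2 * n) = 4 * Y n ^ 2 + (-1) ^ n := by
  rw [two_mul, X_add]
  have := pell n
  linarith

theorem Y_two_mul (n : ℕ) : Y (2 * n) = 2 * (X n * Y n) := by
  rw [two_mul, Y_add]
  ring

theorem X_sub {m n : ℕ} (h : n ≤ m) :
    X (m - n) = (-1) ^ n * (X m * X n - 2 * (Y m * Y n)) := by
  obtain ⟨k, rfl⟩ := Nat.exists_eq_add_of_le h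
  have h1 := pell n
  rw [Nat.add_sub_cancel_left, X_add, Y_add]
  linear_combination (-(X k * (-1) ^ n)) * h1 - X k * sgn_sq n

theorem Y_sub {m n : ℕ} (h : n ≤ m) :
    Y (m - n) = (-1) ^ n * (Y m * X n - X m * Y n) := by
  obtain ⟨k, rfl⟩ := Nat.exists_eq_add_of_le h
  have h1 := pell n
  rw [Nat.add_sub_cancel_left, X_add, Y_add]
  linear_combination (-(Y k * (-1) ^ n)) * h1 - Y k * sgn_sq n

theorem star_e_pow (j : ℕ) : star e ^ j = ⟨X j, -Y j⟩ := by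
  rw [← star_pow, e_pow]
  rfl

theorem e_mul_star (n : ℕ) : e ^ n * star e ^ n = (-1) ^ n := by
  rw [← mul_pow]
  congr 1

theorem B_eq (j : ℕ) (x : ℤ√2) : B j x = X j * x.im - Y j * x.re := by
  unfold B
  rw [star_e_pow, Zsqrtd.im_mul]
  ring

theorem A_eq (j : ℕ) (x : ℤ√2) : A j x = X j * x.re - 2 * (Y j * x.im) := by
  unfold A
  rw [star_e_pow, Zsqrtd.re_mul]
  ring

theorem G_cast (t : ℕ) : (G t : ℤ) = X t * Y t :=
  Int.toNat_of_nonneg (mul_nonneg (X_pos t).le (Y_nonneg t))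

theorem two_G (t : ℕ) : 2 * (G t : ℤ) = Y (2 * t) := by
  rw [G_cast, Y_two_mul]

theorem G_pos {t : ℕ} (ht : 1 ≤ t) : 1 ≤ G t := by
  have h := mul_pos (X_pos t) (Y_pos ht)
  rw [← G_cast t] at h
  exact_mod_cast h

/-- 8 (G t)² + 1 = (X (2 t))². -/
theorem G_pell (t : ℕ) : X (2 * t) ^ 2 = DD 3 * (G t : ℤ) ^ 2 + 1 := by
  have h1 := pell (2 * t)
  have h2 := two_G t
  rw [← h2] at h1
  rw [show ((-1 : ℤ) ^ (2 * t)) = 1 by rw [pow_mul]; norm_num] at h1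
  simp only [DD]
  push_cast
  linarith

/-! ### Real embeddings -/

theorem sr_pos : 0 < sr := Real.sqrt_pos.2 (by norm_num)

theorem sr_mul_self : sr * sr = 2 := Real.mul_self_sqrt (by norm_num)

theorem sr_lt : sr < 1.4143 := by
  have h1 := sr_pos
  have h2 := sr_mul_self
  nlinarith

theorem lt_sr : 1.4142 < sr := by
  have h1 := sr_pos
  have h2 := sr_mul_self
  nlinarith

theorem sq_three : MC.sq 3 = 2 * sr := by
  unfold MC.sq sr
  have h : ((3 : ℕ) : ℝ) ^ 2 - 1 = 2 ^ 2 * 2 := by norm_num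
  rw [h, Real.sqrt_mul (by norm_num), Real.sqrt_sq (by norm_num)]

theorem bb_eq (t : ℕ) : bb 3 (G t) = (Y (2 * t) : ℝ) * sr := by
  unfold bb
  have h : ((2 * (G t : ℤ) : ℤ) : ℝ) = ((Y (2 * t) : ℤ) : ℝ) := by rw [two_G]
  push_cast at h
  rw [sq_three, ← h]
  ring

theorem ph_mul (x y : ℤ√2) : ph (x * y) = ph x * ph y := by
  have h := sr_mul_self
  unfold ph
  rw [Zsqrtd.re_mul, Zsqrtd.im_mul]
  push_cast at h ⊢
  linear_combination (-((x.im : ℝ) * y.im)) * h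

theorem ps_mul (x y : ℤ√2) : ps (x * y) = ps x * ps y := by
  have h := sr_mul_self
  unfold ps
  rw [Zsqrtd.re_mul, Zsqrtd.im_mul]
  push_cast at h ⊢
  linear_combination (-((x.im : ℝ) * y.im)) * h

theorem ph_star (x : ℤ√2) : ph (star x) = ps x := by
  simp [ph, ps, sub_eq_add_neg]

theorem ps_star (x : ℤ√2) : ps (star x) = ph x := by
  simp [ph, ps]

theorem ph_mul_ps (x : ℤ√2) : ph x * ps x = (x.norm : ℝ) := by
  have h := sr_mul_self
  unfold ph ps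
  rw [Zsqrtd.norm_def]
  push_cast at h ⊢
  linear_combination (-((x.im : ℝ) ^ 2)) * h

theorem ph_one : ph 1 = 1 := by simp [ph]

theorem ps_one : ps 1 = 1 := by simp [ps]

theorem ph_pow (x : ℤ√2) (n : ℕ) : ph (x ^ n) = ph x ^ n := by
  induction n with
  | zero => simp [ph_one]
  | succ n ih => rw [pow_succ, ph_mul, ih, pow_succ]

theorem ps_pow (x : ℤ√2) (n : ℕ) : ps (x ^ n) = ps x ^ n := by
  induction n with
  | zero => simp [ps_one]
  | succ n ih => rw [pow_succ, ps_mul, ih, pow_succ]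

theorem ph_e : ph e = ep := by simp [ph, e, ep]

theorem ep_gt : 2.4142 < ep := by
  have := lt_sr
  unfold ep
  linarith

theorem ep_pos : 0 < ep := by linarith [ep_gt]

theorem ep_lt : ep < 2.4143 := by
  have := sr_lt
  unfold ep
  linarith

theorem ep_pow_pos (n : ℕ) : 0 < ep ^ n := pow_pos ep_pos n

theorem one_le_ep_pow (n : ℕ) : 1 ≤ ep ^ n := one_le_pow₀ (by linarith [ep_gt])

theorem ph_e_pow (n : ℕ) : ph (e ^ n) = ep ^ n := by
  rw [ph_pow, ph_e]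

theorem ep_mul_ps : ps e * ep = -1 := by
  have h := sr_mul_self
  simp only [ps, e, ep]
  push_cast
  linarith

theorem ps_e_pow (n : ℕ) : ps (e ^ n) * ep ^ n = (-1) ^ n := by
  rw [ps_pow, ← mul_pow, ep_mul_ps]

theorem abs_ps_e_pow (n : ℕ) : |ps (e ^ n)| * ep ^ n = 1 := by
  have h := congrArg abs (ps_e_pow n)
  rw [abs_mul, abs_of_pos (ep_pow_pos n)] at h
  rw [h]
  simp

theorem two_X (n : ℕ) : 2 * (X n : ℝ) = ep ^ n + ps (e ^ n) := by
  rw [← ph_e_pow]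
  unfold ph ps X
  ring

/-- ε ^ (2 n) ≤ 4 (X n)² + 2. -/
theorem ep_le_X (n : ℕ) : ep ^ (2 * n) ≤ 4 * (X n : ℝ) ^ 2 + 2 := by
  have h1 := two_X (2 * n)
  have h2 := ps_e_pow (2 * n)
  rw [show ((-1 : ℝ) ^ (2 * n)) = 1 by rw [pow_mul]; norm_num] at h2
  have h3 : 0 < ps (e ^ (2 * n)) := by
    by_contra hc
    push Not at hc
    have := ep_pow_pos (2 * n)
    nlinarith
  have h4 : (X (2 * n) : ℝ) = 2 * (X n : ℝ) ^ 2 - (-1) ^ n := by
    have := X_two_mul n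
    exact_mod_cast this
  have h5 : (-1 : ℝ) ≤ (-1) ^ n := by
    rcases neg_one_pow_eq_or ℝ n with h | h <;> rw [h] <;> norm_num
  linarith

/-- ε ^ (2 n) ≤ 8 (Y n)² + 2. -/
theorem ep_le_Y (n : ℕ) : ep ^ (2 * n) ≤ 8 * (Y n : ℝ) ^ 2 + 2 := by
  have h1 := two_X (2 * n)
  have h2 := ps_e_pow (2 * n)
  rw [show ((-1 : ℝ) ^ (2 * n)) = 1 by rw [pow_mul]; norm_num] at h2
  have h3 : 0 < ps (e ^ (2 * n)) := by
    by_contra hc
    push Not at hc
    have := ep_pow_pos (2 * n)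
    nlinarith
  have h4 : (X (2 * n) : ℝ) = 4 * (Y n : ℝ) ^ 2 + (-1) ^ n := by
    have := X_two_mul' n
    exact_mod_cast this
  have h5 : (-1 : ℝ) ^ n ≤ 1 := by
    rcases neg_one_pow_eq_or ℝ n with h | h <;> rw [h] <;> norm_num
  linarith

theorem sr_irr : Irrational sr := Nat.Prime.irrational_sqrt Nat.prime_two |> fun h => by
  unfold sr
  exact_mod_cast h

theorem ph_inj {x y : ℤ√2} (h : ph x = ph y) : x = y := by
  have him : x.im = y.im := by
    by_contra hne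
    have h1 : (x.im : ℝ) - y.im ≠ 0 := by
      intro h0
      apply hne
      have : (x.im : ℝ) = y.im := by linarith
      exact_mod_cast this
    have h2 : sr = (((y.re - x.re : ℤ) : ℚ) / ((x.im - y.im : ℤ) : ℚ) : ℚ) := by
      push_cast
      rw [eq_div_iff h1]
      unfold ph at h
      linarith
    exact sr_irr ⟨_, h2.symm⟩
  apply Zsqrtd.ext _ him
  unfold ph at h
  rw [him] at h
  have : (x.re : ℝ) = y.re := by linarith
  exact_mod_cast this

theorem ph_ne {x : ℤ√2} (hx : x ≠ 0) : ph x ≠ 0 := by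
  intro h
  apply hx
  apply ph_inj
  rw [h]
  simp [ph]

theorem ps_ne {x : ℤ√2} (hx : x ≠ 0) : ps x ≠ 0 := by
  rw [← ph_star]
  apply ph_ne
  intro h
  apply hx
  rw [← star_star x, h, star_zero]

theorem one_le_norm {x : ℤ√2} (hx : x ≠ 0) : 1 ≤ |(x.norm : ℝ)| := by
  have h1 : (x.norm : ℝ) ≠ 0 := by
    rw [← ph_mul_ps]
    exact mul_ne_zero (ph_ne hx) (ps_ne hx)
  have h2 : x.norm ≠ 0 := by exact_mod_cast h1
  have h3 : 1 ≤ |x.norm| := Int.one_le_abs h2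
  have h4 : ((1 : ℤ) : ℝ) ≤ ((|x.norm| : ℤ) : ℝ) := by exact_mod_cast h3
  simpa using h4

end Pool.Agent.Helper65.KT
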