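import Pool.Agent.Helper65.KT.Bd
import Pool.Agent.Helper65.KT.PB
import Pool.Agent.Helper65.KT.PA

/-!
Project KT, module ON: the last step r = 1 (sharp constants).  t = 1 + k j, j ≥ 4, so t - 1 ≥ 4.
n = |N x|, E = ε^(2j).  From PB_point/PA_point with r = 1, X 1 = Y 1 = 1, |N z| ≥ 1
(one_le_norm; integer version) we get
B: Y_j² X_t Y_t ≤ Y_j² n + Y_(t-1) (q² X_t + u² Y_t); X_t = X_(t-1) + 2 Y_(t-1),
Y_t = Y_(t-1) + X_(t-1) (X_succ, Y_succ) and X_(t-1) ≥ 1.4 Y_(t-1) (pell, t - 1 ≥ 4: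
Y_4 = 12), so Y_(t-1) ≤ 5/12 Y_t ≤ 5/12 X_t, and the error is ≤ 5/12 (q² X_t² + u² Y_t²) ≤
5/96 n (E + 7) (sum_B), E + 7 ≤ 8 Y_j² + 9 ≤ 8 Y_j² (1 + 9/1152) (ep_le_Y, Y_j ≥ Y_4 = 12):
X_t Y_t ≤ n (1 + 5/12 (1 + 1/128)) ≤ 10/7 n.
A, first case: error Y_(t-1) (q² X_t + 2 u² Y_t) ≤ 5/12 (q² X_t² + 2 u² Y_t²) ≤ 5/48 n (E + 7) (sum_A),
E + 7 ≤ 4 X_j² + 9 ≤ 4 X_j² (1 + 9/1156) (ep_le_X, X_4 = 17).
A, second case: error X_(t-1) (u² Y_t + q² X_t), X_(t-1) ≤ 5/12 X_t (Y_(t-1) ≥ 0.7 X_(t-1), from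
Y_4 / X_4 = 12/17 on: pell), X_(t-1) ≤ 5/6 Y_t: error ≤ 5/12 (q² X_t² + 2 u² Y_t²) again.
-/

namespace Pool.Agent.Helper65.KT

open Pool.Agent.Helper20 Pool.Agent.Helper20.MC

private theorem ON_four : X 4 = 17 ∧ Y 4 = 12 := by
  constructor
  · rw [show (4 : ℕ) = (((0 + 1) + 1) + 1) + 1 by rfl]
    simp only [X_succ, Y_succ, X_zero, Y_zero]
    norm_num
  · rw [show (4 : ℕ) = (((0 + 1) + 1) + 1) + 1 by rfl]
    simp only [X_succ, Y_succ, X_zero, Y_zero]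
    norm_num

private theorem ON_big {s : ℕ} (hs : 4 ≤ s) : (12 : ℝ) ≤ Y s ∧ (17 : ℝ) ≤ X s := by
  constructor
  · have h := Y_strictMono.monotone hs
    rw [ON_four.2] at h
    exact_mod_cast h
  · have h : X 4 ≤ X s := by
      rcases eq_or_lt_of_le hs with rfl | h
      · exact le_rfl
      · exact (X_lt (by norm_num) h).le
    rw [ON_four.1] at h
    exact_mod_cast h

private theorem ON_ratio {s : ℕ} (hs : 4 ≤ s) :
    7 * (Y s : ℝ) ≤ 5 * X s ∧ 7 * (X s : ℝ) ≤ 10 * Y s := by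
  obtain ⟨h1, h2⟩ := ON_big hs
  have h3 : (X s : ℝ) ^ 2 - 2 * (Y s : ℝ) ^ 2 = (-1) ^ s := by exact_mod_cast pell s
  have h4 : (-1 : ℝ) ≤ (-1) ^ s ∧ (-1 : ℝ) ^ s ≤ 1 := by
    rcases neg_one_pow_eq_or ℝ s with h | h <;> rw [h] <;> norm_num
  obtain ⟨h5, h6⟩ := h4
  rw [← h3] at h5 h6
  constructor
  · by_contra hc
    push Not at hc
    have h7 : 0 < (7 * (Y s : ℝ) - 5 * X s) * (7 * Y s + 5 * X s) :=
      mul_pos (by linarith) (by linarith)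
    nlinarith
  · by_contra hc
    push Not at hc
    have h7 : 0 < (7 * (X s : ℝ) - 10 * Y s) * (7 * X s + 10 * Y s) :=
      mul_pos (by linarith) (by linarith)
    nlinarith

private theorem ON_fin {n M P W err : ℝ} (hW : 0 < W) (hM : 1 ≤ M) (hP : 0 ≤ P)
    (h : W * (M * P) ≤ W * n + err) (herr : err ≤ 3 / 7 * (W * n)) : P ≤ 10 / 7 * n := by
  have h1 : W * (M * P) ≤ W * (10 / 7 * n) := by linarith
  have h2 : M * P ≤ 10 / 7 * n := le_of_mul_le_mul_left h1 hW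
  have h3 : 1 * P ≤ M * P := mul_le_mul_of_nonneg_right hM hP
  linarith

theorem oneB {t j k : ℕ} (hj : 4 ≤ j) (hk : 1 ≤ k)
    (ht : t = 1 + k * j) {x : ℤ√2} (hx : x ≠ 0) (hL : LB t j x)
    (h1 : |ps x| ≤ |ph x|) (h2 : |ph x| ≤ ep ^ (2 * j) * |ps x|) :
    (X t : ℝ) * Y t ≤ 10 / 7 * |(x.norm : ℝ)| := by
  obtain ⟨z, u, q, hz, -, hu, hq, hin⟩ := PB_point (r := 1) le_rfl (by omega) ht hx hL
  rw [X_one, Y_one] at hin
  obtain ⟨s, hs, hs4⟩ : ∃ s, t = s + 1 ∧ 4 ≤ s := by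
    refine ⟨k * j, by omega, ?_⟩
    calc 4 ≤ j := hj
      _ = 1 * j := (one_mul j).symm
      _ ≤ k * j := Nat.mul_le_mul_right j hk
  have hts : t - 1 = s := by omega
  rw [hts] at hin
  have e1 : (X t : ℝ) = X s + 2 * Y s := by
    rw [hs]
    exact_mod_cast X_succ s
  have e2 : (Y t : ℝ) = Y s + X s := by
    rw [hs]
    exact_mod_cast Y_succ s
  obtain ⟨b1, b2⟩ := ON_big hs4
  obtain ⟨r1, r2⟩ := ON_ratio hs4
  obtain ⟨c1, c2⟩ := ON_big hj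
  have hsum := sum_B (j := j) h1 h2
  have hE := ep_le_Y j
  have hM := one_le_norm hz
  have hn := one_le_norm hx
  have hinR : (Y j : ℝ) ^ 2 * (|(z.norm : ℝ)| * (X t * Y t)) ≤
      (Y j : ℝ) ^ 2 * |(x.norm : ℝ)| + Y s * ((q : ℝ) ^ 2 * X t + (u : ℝ) ^ 2 * Y t) := by
    have h3 : ((Y j ^ 2 * (|z.norm| * (X t * Y t)) : ℤ) : ℝ) ≤
      ((Y j ^ 2 * (|x.norm| * (1 * 1)) + Y s * (q ^ 2 * 1 * X t + u ^ 2 * 1 * Y t) : ℤ) : ℝ) := by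
      exact_mod_cast hin
    push_cast at h3
    linarith
  have hu' : (x.im : ℝ) = Y t * u := by exact_mod_cast hu
  have hq' : (B j x : ℝ) = X t * q := by exact_mod_cast hq
  rw [hu', hq'] at hsum
  have hYt : 12 * (Y s : ℝ) ≤ 5 * Y t := by rw [e2]; linarith
  have hXt : 12 * (Y s : ℝ) ≤ 5 * X t := by rw [e1]; linarith
  have hYt0 : (0 : ℝ) ≤ Y t := by rw [e2]; linarith
  have hXt0 : (0 : ℝ) ≤ X t := by rw [e1]; linarith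
  have g1 : (Y s : ℝ) * ((q : ℝ) ^ 2 * X t) ≤ 5 / 12 * (X t * q) ^ 2 := by
    have h3 := mul_le_mul_of_nonneg_right hXt (mul_nonneg (sq_nonneg (q : ℝ)) hXt0)
    nlinarith
  have g2 : (Y s : ℝ) * ((u : ℝ) ^ 2 * Y t) ≤ 5 / 12 * (Y t * u) ^ 2 := by
    have h3 := mul_le_mul_of_nonneg_right hYt (mul_nonneg (sq_nonneg (u : ℝ)) hYt0)
    nlinarith
  have hW : (144 : ℝ) ≤ (Y j : ℝ) ^ 2 := by nlinarith
  refine ON_fin (W := (Y j : ℝ) ^ 2) (M := |(z.norm : ℝ)|) (by linarith) hM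
    (mul_nonneg hXt0 hYt0) hinR ?_
  have h4 : |(x.norm : ℝ)| * (ep ^ (2 * j) + 7) ≤ |(x.norm : ℝ)| * (129 / 16 * (Y j : ℝ) ^ 2) :=
    mul_le_mul_of_nonneg_left (by linarith) (by linarith)
  have h5 : 0 ≤ |(x.norm : ℝ)| * (Y j : ℝ) ^ 2 := mul_nonneg (by linarith) (by linarith)
  have h6 : (Y s : ℝ) * ((q : ℝ) ^ 2 * X t + (u : ℝ) ^ 2 * Y t) =
      Y s * ((q : ℝ) ^ 2 * X t) + Y s * ((u : ℝ) ^ 2 * Y t) := by ring
  rw [h6]
  linarith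

private theorem ON_A {j t : ℕ} {x : ℤ√2} {u q : ℤ} {err : ℝ} (hj : 4 ≤ j)
    (hn : 1 ≤ |(x.norm : ℝ)|) (hu : x.im = Y t * u) (hq : A j x = X t * q)
    (h1 : |ps x| ≤ |ph x|) (h2 : |ph x| ≤ ep ^ (2 * j) * |ps x|)
    (herr : err ≤ 5 / 12 * ((X t * q) ^ 2 + 2 * (Y t * u) ^ 2)) :
    err ≤ 3 / 7 * ((X j : ℝ) ^ 2 * |(x.norm : ℝ)|) := by
  obtain ⟨c1, c2⟩ := ON_big hj
  have hsum := sum_A (j := j) h1 h2
  have hE := ep_le_X j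
  have hu' : (x.im : ℝ) = Y t * u := by exact_mod_cast hu
  have hq' : (A j x : ℝ) = X t * q := by exact_mod_cast hq
  rw [hu', hq'] at hsum
  have hW : (289 : ℝ) ≤ (X j : ℝ) ^ 2 := by nlinarith
  have h4 : |(x.norm : ℝ)| * (ep ^ (2 * j) + 7) ≤
      |(x.norm : ℝ)| * (1165 / 289 * (X j : ℝ) ^ 2) :=
    mul_le_mul_of_nonneg_left (by linarith) (by linarith)
  have h5 : 0 ≤ |(x.norm : ℝ)| * (X j : ℝ) ^ 2 := mul_nonneg (by linarith) (by linarith)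
  linarith

theorem oneA {t j k : ℕ} (hj : 4 ≤ j) (hk : 1 ≤ k)
    (ht : t = 1 + k * j) {x : ℤ√2} (hx : x ≠ 0) (hL : LA t j x)
    (h1 : |ps x| ≤ |ph x|) (h2 : |ph x| ≤ ep ^ (2 * j) * |ps x|) :
    (X t : ℝ) * Y t ≤ 10 / 7 * |(x.norm : ℝ)| := by
  obtain ⟨z, u, q, hz, -, hu, hq, hin⟩ := PA_point (r := 1) le_rfl (by omega) ht hx hL
  rw [X_one, Y_one] at hin
  obtain ⟨s, hs, hs4⟩ : ∃ s, t = s + 1 ∧ 4 ≤ s := by
    refine ⟨k * j, by omega, ?_⟩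
    calc 4 ≤ j := hj
      _ = 1 * j := (one_mul j).symm
      _ ≤ k * j := Nat.mul_le_mul_right j hk
  have hts : t - 1 = s := by omega
  rw [hts] at hin
  have e1 : (X t : ℝ) = X s + 2 * Y s := by
    rw [hs]
    exact_mod_cast X_succ s
  have e2 : (Y t : ℝ) = Y s + X s := by
    rw [hs]
    exact_mod_cast Y_succ s
  obtain ⟨b1, b2⟩ := ON_big hs4
  obtain ⟨r1, r2⟩ := ON_ratio hs4
  obtain ⟨c1, c2⟩ := ON_big hj
  have hM := one_le_norm hz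
  have hn := one_le_norm hx
  have hYt0 : (0 : ℝ) ≤ Y t := by rw [e2]; linarith
  have hXt0 : (0 : ℝ) ≤ X t := by rw [e1]; linarith
  have hW : (289 : ℝ) ≤ (X j : ℝ) ^ 2 := by nlinarith
  rcases hin with hin | hin
  · have hinR : (X j : ℝ) ^ 2 * (|(z.norm : ℝ)| * (X t * Y t)) ≤
        (X j : ℝ) ^ 2 * |(x.norm : ℝ)| +
          (Y s * ((q : ℝ) ^ 2 * X t) + Y s * (2 * (u : ℝ) ^ 2 * Y t)) := by
      have h3 : ((X j ^ 2 * (|z.norm| * (X t * Y t)) : ℤ) : ℝ) ≤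
        ((X j ^ 2 * (|x.norm| * (1 * 1)) +
          Y s * (q ^ 2 * 1 * X t + 2 * u ^ 2 * 1 * Y t) : ℤ) : ℝ) := by
        exact_mod_cast hin
      push_cast at h3
      linarith
    have hYt : 12 * (Y s : ℝ) ≤ 5 * Y t := by rw [e2]; linarith
    have hXt : 12 * (Y s : ℝ) ≤ 5 * X t := by rw [e1]; linarith
    refine ON_fin (W := (X j : ℝ) ^ 2) (M := |(z.norm : ℝ)|) (by linarith) hM
      (mul_nonneg hXt0 hYt0) hinR (ON_A hj hn hu hq h1 h2 ?_)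
    have g1 : (Y s : ℝ) * ((q : ℝ) ^ 2 * X t) ≤ 5 / 12 * (X t * q) ^ 2 := by
      have h3 := mul_le_mul_of_nonneg_right hXt (mul_nonneg (sq_nonneg (q : ℝ)) hXt0)
      nlinarith
    have g2 : (Y s : ℝ) * (2 * (u : ℝ) ^ 2 * Y t) ≤ 5 / 12 * (2 * (Y t * u) ^ 2) := by
      have h3 := mul_le_mul_of_nonneg_right hYt (mul_nonneg (sq_nonneg (u : ℝ)) hYt0)
      nlinarith
    linarith
  · have hinR : (X j : ℝ) ^ 2 * (|(z.norm : ℝ)| * (X t * Y t)) ≤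
        (X j : ℝ) ^ 2 * |(x.norm : ℝ)| +
          (X s * ((u : ℝ) ^ 2 * Y t) + X s * ((q : ℝ) ^ 2 * X t)) := by
      have h3 : ((X j ^ 2 * (|z.norm| * (X t * Y t)) : ℤ) : ℝ) ≤
        ((X j ^ 2 * (|x.norm| * (1 * 1)) +
          X s * (u ^ 2 * 1 * Y t + q ^ 2 * X t * 1) : ℤ) : ℝ) := by
        exact_mod_cast hin
      push_cast at h3
      linarith
    have hYt : 6 * (X s : ℝ) ≤ 5 * Y t := by rw [e2]; linarith
    have hXt : 12 * (X s : ℝ) ≤ 5 * X t := by rw [e1]; linarith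
    refine ON_fin (W := (X j : ℝ) ^ 2) (M := |(z.norm : ℝ)|) (by linarith) hM
      (mul_nonneg hXt0 hYt0) hinR (ON_A hj hn hu hq h1 h2 ?_)
    have g1 : (X s : ℝ) * ((q : ℝ) ^ 2 * X t) ≤ 5 / 12 * (X t * q) ^ 2 := by
      have h3 := mul_le_mul_of_nonneg_right hXt (mul_nonneg (sq_nonneg (q : ℝ)) hXt0)
      nlinarith
    have g2 : (X s : ℝ) * ((u : ℝ) ^ 2 * Y t) ≤ 5 / 12 * (2 * (Y t * u) ^ 2) := by
      have h3 := mul_le_mul_of_nonneg_right hYt (mul_nonneg (sq_nonneg (u : ℝ)) hYt0)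
      nlinarith
    linarith

end Pool.Agent.Helper65.KT
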