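import Pool.Agent.Helper65.KT.Defs

/-!
Project KT, module Rd: normalisation.  Copy of Helper65/KG/Rd.lean with D = 2 and norm -1
(units e ^ n have norm ± 1, so only |N| is preserved; ps (e ^ t) has absolute value 1 / ε^t
(abs_ps_e_pow); e ^ n * star e ^ n = (-1)^n (e_mul_star): the signs do not matter for
divisibility and absolute values).  In (c2) use that X t is prime to Y t and to 2 Y t
(XY_coprime, X_coprime_two_Y), or multiply back.
-/

namespace Pool.Agent.Helper65.KT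

open Pool.Agent.Helper20 Pool.Agent.Helper20.MC

/-- union of the two types -/
def Rd_C (t j : ℕ) (x : ℤ√2) : Prop := LB t j x ∨ LA t j x

theorem Rd_mul {t j : ℕ} {x w : ℤ√2} (h1 : X t ∣ w.re) (h2 : Y t ∣ w.im)
    (h : Rd_C t j x) : Rd_C t j (x * w) := by
  have key : x * w * star e ^ j = (x * star e ^ j) * w := by ring
  have him : Y t ∣ x.im → Y t ∣ (x * w).im := by
    intro hx
    rw [Zsqrtd.im_mul]
    exact dvd_add (Dvd.dvd.mul_left h2 _) (Dvd.dvd.mul_right hx _)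
  rcases h with ⟨hx, hB⟩ | ⟨hx, hA⟩
  · refine Or.inr ⟨him hx, ?_⟩
    unfold A
    unfold B at hB
    rw [key, Zsqrtd.re_mul]
    exact dvd_add (Dvd.dvd.mul_left h1 _) (Dvd.dvd.mul_right (Dvd.dvd.mul_left hB _) _)
  · refine Or.inl ⟨him hx, ?_⟩
    unfold B
    unfold A at hA
    rw [key, Zsqrtd.im_mul]
    exact dvd_add (Dvd.dvd.mul_right hA _) (Dvd.dvd.mul_left h1 _)

theorem Rd_mul_pow {t j : ℕ} {x w : ℤ√2} (h1 : X t ∣ w.re) (h2 : Y t ∣ w.im)
    (h : Rd_C t j x) (n : ℕ) : Rd_C t j (x * w ^ n) := by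
  induction n with
  | zero => simpa using h
  | succ n ih =>
    rw [pow_succ, ← mul_assoc]
    exact Rd_mul h1 h2 ih

theorem Rd_w (t : ℕ) : X t ∣ (((-1) ^ t * e ^ t : ℤ√2)).re ∧ Y t ∣ (((-1) ^ t * e ^ t : ℤ√2)).im := by
  rcases neg_one_pow_eq_or (ℤ√2) t with h | h
  · rw [h, one_mul]
    exact ⟨dvd_refl _, dvd_refl _⟩
  · rw [h, neg_one_mul, Zsqrtd.re_neg, Zsqrtd.im_neg]
    exact ⟨dvd_neg.2 (dvd_refl _), dvd_neg.2 (dvd_refl _)⟩

theorem Rd_sgn (n : ℕ) : ((-1 : ℤ√2) ^ n) * (-1) ^ n = 1 := by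
  rw [← mul_pow]
  simp

theorem Rd_sub {t j : ℕ} {x : ℤ√2} (h : Rd_C t (j + t) x) : Rd_C t j x := by
  have key : x * star e ^ j = (x * star e ^ (j + t)) * ((-1) ^ t * e ^ t) := by
    rw [pow_add]
    linear_combination (-(x * star e ^ j * (-1) ^ t)) * e_mul_star t -
      (x * star e ^ j) * Rd_sgn t
  obtain ⟨hw1, hw2⟩ := Rd_w t
  rcases h with ⟨hx, hB⟩ | ⟨hx, hA⟩
  · refine Or.inr ⟨hx, ?_⟩
    unfold A
    unfold B at hB
    rw [key, Zsqrtd.re_mul]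
    exact dvd_add (Dvd.dvd.mul_left hw1 _)
      (Dvd.dvd.mul_right (Dvd.dvd.mul_left hB _) _)
  · refine Or.inl ⟨hx, ?_⟩
    unfold B
    unfold A at hA
    rw [key, Zsqrtd.im_mul]
    exact dvd_add (Dvd.dvd.mul_right hA _) (Dvd.dvd.mul_left hw1 _)

theorem Rd_mod {t : ℕ} {x : ℤ√2} (r q : ℕ) (h : Rd_C t (r + t * q) x) :
    Rd_C t r x := by
  induction q with
  | zero => simpa using h
  | succ q ih =>
    apply ih
    apply Rd_sub
    rwa [mul_add, mul_one, ← add_assoc] at h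

theorem Rd_norm_e (n : ℕ) : |(e ^ n).norm| = 1 := by
  have h1 := pell n
  have h2 : (e ^ n).norm = (-1) ^ n := by
    rw [e_pow, Zsqrtd.norm_def, ← h1]
    ring
  rw [h2]
  simp

theorem Rd_norm_se (n : ℕ) : |(star e ^ n).norm| = 1 := by
  rw [← star_pow, Zsqrtd.norm_conj]
  exact Rd_norm_e n

/-- the units `e ^ (- t n)` -/
theorem Rd_unit {t : ℕ} (n : ℤ) :
    ∃ v : ℤ√2, (∀ j x, Rd_C t j x → Rd_C t j (x * v)) ∧ |v.norm| = 1 ∧
      |ph v| = (ep ^ t) ^ (-n) ∧ |ps v| = (ep ^ t) ^ n := by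
  have hse : X t ∣ (star e ^ t).re ∧ Y t ∣ (star e ^ t).im := by
    rw [star_e_pow]
    exact ⟨dvd_refl _, (dvd_neg.2 (dvd_refl _))⟩
  have hps : |ps (e ^ t)| = (ep ^ t)⁻¹ := eq_inv_of_mul_eq_one_left (abs_ps_e_pow t)
  have het := ep_pow_pos t
  obtain ⟨m, rfl | rfl⟩ := n.eq_nat_or_neg
  · refine ⟨(star e ^ t) ^ m, fun j x h => Rd_mul_pow hse.1 hse.2 h m, ?_, ?_, ?_⟩
    · rw [← pow_mul]
      exact Rd_norm_se _
    · rw [ph_pow, ← star_pow, ph_star, abs_pow, hps, inv_pow, zpow_neg, zpow_natCast]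
    · rw [ps_pow, ← star_pow, ps_star, ph_e_pow, zpow_natCast, abs_pow, abs_of_pos het]
  · refine ⟨(e ^ t) ^ m, fun j x h => Rd_mul_pow (dvd_refl _) (dvd_refl _) h m, ?_, ?_, ?_⟩
    · rw [← pow_mul]
      exact Rd_norm_e _
    · rw [ph_pow, ph_e_pow, neg_neg, zpow_natCast, abs_pow, abs_of_pos het]
    · rw [ps_pow, abs_pow, hps, inv_pow, zpow_neg, zpow_natCast]

theorem Rd_range {t j : ℕ} (ht : 1 ≤ t) {x : ℤ√2} (hx : x ≠ 0)
    (hL : Rd_C t j x) :
    ∃ x' : ℤ√2, x' ≠ 0 ∧ |x'.norm| = |x.norm| ∧ Rd_C t j x' ∧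
      |ps x'| ≤ |ph x'| ∧ |ph x'| ≤ ep ^ (2 * t) * |ps x'| := by
  have hp : 0 < |ph x| := abs_pos.2 (ph_ne hx)
  have hq : 0 < |ps x| := abs_pos.2 (ps_ne hx)
  have he : 1 < ep := by linarith [ep_gt]
  have hE : 1 < ep ^ (2 * t) := one_lt_pow₀ he (by omega)
  have het : 0 < ep ^ t := ep_pow_pos t
  obtain ⟨n, hn1, hn2⟩ := exists_mem_Ico_zpow (div_pos hp hq) hE
  obtain ⟨v, hv1, hv2, hv3, hv4⟩ := Rd_unit (t := t) n
  have hF : 0 < (ep ^ t) ^ n := zpow_pos het n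
  set F : ℝ := (ep ^ t) ^ n with hFdef
  have hEn : (ep ^ (2 * t)) ^ n = F * F := by
    rw [hFdef, ← mul_zpow]
    congr 1
    ring
  have hE1 : (ep ^ (2 * t)) ^ (n + 1) = F * F * ep ^ (2 * t) := by
    rw [zpow_add_one₀ (by linarith), hEn]
  rw [hEn, le_div_iff₀ hq] at hn1
  rw [hE1, div_lt_iff₀ hq] at hn2
  have hph : |ph (x * v)| = |ph x| * F⁻¹ := by
    rw [ph_mul, abs_mul, hv3, zpow_neg]
  have hps : |ps (x * v)| = |ps x| * F := by
    rw [ps_mul, abs_mul, hv4]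
  refine ⟨x * v, ?_, ?_, hv1 j x hL, ?_, ?_⟩
  · intro h
    rw [h] at hps
    have h0 : ps (0 : ℤ√2) = 0 := by simp [ps]
    rw [h0, abs_zero] at hps
    have := mul_pos hq hF
    linarith
  · rw [Zsqrtd.norm_mul, abs_mul, hv2, mul_one]
  · rw [hph, hps, ← div_eq_mul_inv, le_div_iff₀ hF]
    linarith
  · rw [hph, hps, ← div_eq_mul_inv, div_le_iff₀ hF]
    linarith

theorem Rd_dvd_sgn {u v : ℤ} (n : ℕ) {a b : ℤ√2} (h : a = (-1) ^ n * b) (hv : u ∣ v)
    (hb : b.re = v ∨ b.re = -v) : u ∣ a.re := by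
  have hb' : u ∣ b.re := by
    rcases hb with hb | hb <;> rw [hb]
    · exact hv
    · exact dvd_neg.2 hv
  rcases neg_one_pow_eq_or (ℤ√2) n with h1 | h1
  · rw [h, h1, one_mul]
    exact hb'
  · rw [h, h1, neg_one_mul, Zsqrtd.re_neg]
    exact dvd_neg.2 hb'

theorem Rd_dvd_sgn' {u v : ℤ} (n : ℕ) {a b : ℤ√2} (h : a = (-1) ^ n * b) (hv : u ∣ v)
    (hb : b.im = v ∨ b.im = -v) : u ∣ a.im := by
  have hb' : u ∣ b.im := by
    rcases hb with hb | hb <;> rw [hb]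
    · exact hv
    · exact dvd_neg.2 hv
  rcases neg_one_pow_eq_or (ℤ√2) n with h1 | h1
  · rw [h, h1, one_mul]
    exact hb'
  · rw [h, h1, neg_one_mul, Zsqrtd.im_neg]
    exact dvd_neg.2 hb'

theorem reduce {t j : ℕ} (ht : 2 ≤ t) (hc : Nat.Coprime j t) {x : ℤ√2}
    (hx : x ≠ 0) (hL : LB t j x ∨ LA t j x) :
    ∃ (j' : ℕ) (x' : ℤ√2), 1 ≤ j' ∧ j' < t ∧ (j' = j % t ∨ j' = t - j % t) ∧ x' ≠ 0 ∧
      |x'.norm| = |x.norm| ∧ (LB t j' x' ∨ LA t j' x') ∧
      |ps x'| ≤ |ph x'| ∧ |ph x'| ≤ ep ^ (2 * j') * |ps x'| := by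
  have hr : Rd_C t (j % t) x := by
    apply Rd_mod (j % t) (j / t)
    rw [Nat.mod_add_div]
    exact hL
  have hrt : j % t < t := Nat.mod_lt _ (by omega)
  have hrc : Nat.Coprime (j % t) t := by
    unfold Nat.Coprime at hc ⊢
    rw [← Nat.gcd_rec t j, Nat.gcd_comm]
    exact hc
  have hr1 : 1 ≤ j % t := by
    by_contra h
    have h0 : j % t = 0 := by omega
    rw [h0, Nat.coprime_zero_left] at hrc
    omega
  obtain ⟨x1, hx1, hn1, hC1, hlow, hup⟩ := Rd_range (by omega) hx hr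
  set r := j % t with hrdef
  by_cases hcase : |ph x1| ≤ ep ^ (2 * r) * |ps x1|
  · exact ⟨r, x1, hr1, hrt, Or.inl rfl, hx1, hn1, hC1, hlow, hcase⟩
  · push Not at hcase
    have het : 0 < ep ^ t := ep_pow_pos t
    have hps : |ps (e ^ t)| = (ep ^ t)⁻¹ := eq_inv_of_mul_eq_one_left (abs_ps_e_pow t)
    set x2 : ℤ√2 := star (x1 * star e ^ t) with hx2
    have hph2 : |ph x2| = |ps x1| * ep ^ t := by
      rw [hx2, ph_star, ps_mul, ← star_pow, ps_star, ph_e_pow, abs_mul, abs_of_pos het]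
    have hps2 : |ps x2| = |ph x1| * (ep ^ t)⁻¹ := by
      rw [hx2, ps_star, ph_mul, ← star_pow, ph_star, abs_mul, hps]
    have hkey : x2 * star e ^ (t - r) = (-1) ^ (t - r) * star (x1 * star e ^ r) := by
      have h1 : star e ^ t = star e ^ r * star e ^ (t - r) := by
        rw [← pow_add]
        congr 1
        omega
      have h2 : star (star e ^ t) = e ^ r * e ^ (t - r) := by
        rw [h1, star_mul', star_pow, star_pow, star_star]
      rw [hx2, star_mul', h2, star_mul', star_pow, star_star]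
      linear_combination (star x1 * e ^ r) * e_mul_star (t - r)
    have him2 : Y t ∣ x2.im := by
      have h3 : Y t ∣ x1.im := by
        rcases hC1 with h | h
        · exact h.1
        · exact h.1
      have h4 : x2.im = - (x1.re * (-Y t) + x1.im * X t) := by
        rw [hx2, star_e_pow, Zsqrtd.im_star, Zsqrtd.im_mul]
      rw [h4]
      exact dvd_neg.2 (dvd_add (Dvd.dvd.mul_left (dvd_neg.2 (dvd_refl _)) _)
        (Dvd.dvd.mul_right h3 _))
    refine ⟨t - r, x2, by omega, by omega, Or.inr rfl, ?_, ?_, ?_, ?_, ?_⟩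
    · intro h
      rw [h] at hph2
      have h0 : ph (0 : ℤ√2) = 0 := by simp [ph]
      rw [h0, abs_zero] at hph2
      have := mul_pos (abs_pos.2 (ps_ne hx1)) het
      linarith
    · rw [hx2, Zsqrtd.norm_conj, Zsqrtd.norm_mul, abs_mul, Rd_norm_se, mul_one, hn1]
    · rcases hC1 with h | h
      · refine Or.inl ⟨him2, ?_⟩
        exact Rd_dvd_sgn' (t - r) hkey h.2 (Or.inr rfl)
      · refine Or.inr ⟨him2, ?_⟩
        exact Rd_dvd_sgn (t - r) hkey h.2 (Or.inl rfl)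
    · rw [hph2, hps2, ← div_eq_mul_inv, div_le_iff₀ het]
      have h5 : ep ^ (2 * t) = ep ^ t * ep ^ t := by ring
      rw [h5] at hup
      linarith
    · have h5 : ep ^ t * ep ^ t = ep ^ (2 * (t - r)) * ep ^ (2 * r) := by
        rw [← pow_add, ← pow_add]
        congr 1
        omega
      rw [hph2, hps2, ← div_eq_mul_inv, ← mul_div_assoc, le_div_iff₀ het, mul_assoc, h5]
      have h6 : 0 < ep ^ (2 * (t - r)) := ep_pow_pos _
      calc |ps x1| * (ep ^ (2 * (t - r)) * ep ^ (2 * r))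
          = ep ^ (2 * (t - r)) * (ep ^ (2 * r) * |ps x1|) := by ring
        _ ≤ ep ^ (2 * (t - r)) * |ph x1| := mul_le_mul_of_nonneg_left hcase.le h6.le

end Pool.Agent.Helper65.KT
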