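import Pool.Agent.Helper65.KT.Defs
import Pool.Agent.Helper20.MC.CF1

/-!
Project KT, module Rl: following the continued fraction inside the lattice.  Copy of
Helper65/KG/Rl.lean (there D = a² - 1, level Y (2t); here the level is G t with √8 G t = √2 Y (2t):
bb_eq, two_G; DD 3 = 8, 8 G² = 2 (Y (2t))²).  Rel.bound is new (sharp): with Q = p.2 = 2 |N y1|, P = p.1,
b = Y (2t) √2 = 2 √2 f, f = X_t Y_t: b² - P² = 4 |N y1| |N y2| (norm of y2 star y1; |P| < b as p is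
reduced), f ≤ 52/35 |N y1|, f ≤ 52/35 |N y2|.  If (P + b) / Q ≥ 4 then P ≥ 8 |N y1| - b ≥ (280/52 - 2 √2) f,
that is P ≥ 2.55 f, while P² ≤ 8 f² - 4 (35/52)² f² ≤ 6.188 f², P ≤ 2.49 f.  Contradiction.
-/

namespace Pool.Agent.Helper65.KT

open Pool.Agent.Helper20 Pool.Agent.Helper20.MC

private theorem Rl_coord {t : ℕ} {p : ℤ × ℤ} {σ : ℤ} {y1 y2 : ℤ√2}
    (hQ : p.2 = 2 * σ * y1.norm)
    (hy : (⟨p.1, Y (2 * t)⟩ : ℤ√2) = ((2 * σ : ℤ) : ℤ√2) * (y2 * star y1)) :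
    p.2 = 2 * σ * (y1.re * y1.re - 2 * y1.im * y1.im) ∧
    p.1 = 2 * σ * (y2.re * y1.re - 2 * (y2.im * y1.im)) ∧
    Y (2 * t) = 2 * σ * (y2.im * y1.re - y2.re * y1.im) := by
  refine ⟨?_, ?_, ?_⟩
  · rw [hQ, Zsqrtd.norm_def]
  · have h := congrArg Zsqrtd.re hy
    rw [Zsqrtd.re_mul, Zsqrtd.re_mul, Zsqrtd.im_mul, Zsqrtd.re_intCast, Zsqrtd.im_intCast,
      Zsqrtd.re_star, Zsqrtd.im_star] at h
    linear_combination h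
  · have h := congrArg Zsqrtd.im hy
    rw [Zsqrtd.im_mul, Zsqrtd.re_mul, Zsqrtd.im_mul, Zsqrtd.re_intCast, Zsqrtd.im_intCast,
      Zsqrtd.re_star, Zsqrtd.im_star] at h
    linear_combination h

private theorem Rl_LB {t j : ℕ} {y1 y2 : ℤ√2} (h1 : LB t j y1) (h2 : LB t j y2)
    (m : ℤ) : LB t j (y2 - (m : ℤ√2) * y1) := by
  obtain ⟨a1, b1⟩ := h1
  obtain ⟨a2, b2⟩ := h2
  have e1 : (y2 - (m : ℤ√2) * y1).im = y2.im - m * y1.im := by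
    rw [Zsqrtd.im_sub, Zsqrtd.im_mul, Zsqrtd.re_intCast, Zsqrtd.im_intCast]
    ring
  have e2 : (y2 - (m : ℤ√2) * y1).re = y2.re - m * y1.re := by
    rw [Zsqrtd.re_sub, Zsqrtd.re_mul, Zsqrtd.re_intCast, Zsqrtd.im_intCast]
    ring
  refine ⟨?_, ?_⟩
  · rw [e1]
    exact dvd_sub a2 (Dvd.dvd.mul_left a1 m)
  · rw [B_eq] at b1 b2 ⊢
    rw [e1, e2]
    have e3 : X j * (y2.im - m * y1.im) - Y j * (y2.re - m * y1.re) =
        (X j * y2.im - Y j * y2.re) - m * (X j * y1.im - Y j * y1.re) := by ring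
    rw [e3]
    exact dvd_sub b2 (Dvd.dvd.mul_left b1 m)

private theorem Rl_G (t : ℕ) : DD 3 * (G t : ℤ) ^ 2 = 2 * Y (2 * t) ^ 2 := by
  rw [← two_G t]
  simp only [DD]
  push_cast
  ring

theorem Rel.next {t j : ℕ} (ht : 1 ≤ t) {p : ℤ × ℤ} {σ : ℤ} {y1 y2 : ℤ√2}
    (hp : p ∈ Red 3 (G t)) (h : Rel t j p σ y1 y2) :
    Rel t j (nx 3 (G t) p) (-σ) (y2 - ((⌊xv 3 (G t) p⌋ : ℤ) : ℤ√2) * y1) y1 := by
  obtain ⟨hσ, hQ, hy, hL1, hL2, hs⟩ := h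
  obtain ⟨c1, c2, c3⟩ := Rl_coord hQ hy
  have hQpos : 0 < p.2 := hp.1
  have n1 : (nx 3 (G t) p).1 = ⌊xv 3 (G t) p⌋ * p.2 - p.1 := rfl
  have n2 : (nx 3 (G t) p).2 =
    (DD 3 * (G t : ℤ) ^ 2 - (⌊xv 3 (G t) p⌋ * p.2 - p.1) ^ 2) / p.2 := rfl
  generalize ⌊xv 3 (G t) p⌋ = m at n1 n2 ⊢
  have e1 : (y2 - (m : ℤ√2) * y1).im = y2.im - m * y1.im := by
    rw [Zsqrtd.im_sub, Zsqrtd.im_mul, Zsqrtd.re_intCast, Zsqrtd.im_intCast]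
    ring
  have e2 : (y2 - (m : ℤ√2) * y1).re = y2.re - m * y1.re := by
    rw [Zsqrtd.re_sub, Zsqrtd.re_mul, Zsqrtd.re_intCast, Zsqrtd.im_intCast]
    ring
  refine ⟨?_, ?_, ?_, Rl_LB hL1 hL2 m, hL1, ?_⟩
  · rcases hσ with rfl | rfl
    · exact Or.inr rfl
    · exact Or.inl (by norm_num)
  · rw [n2]
    apply Int.ediv_eq_of_eq_mul_right hQpos.ne'
    rw [Rl_G, c3, Zsqrtd.norm_def, e1, e2]
    rw [c1, c2]
    ring
  · apply Zsqrtd.ext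
    · rw [n1, Zsqrtd.re_mul, Zsqrtd.re_mul, Zsqrtd.im_mul, Zsqrtd.re_intCast, Zsqrtd.im_intCast,
        Zsqrtd.re_star, Zsqrtd.im_star, e1, e2, c1, c2]
      ring
    · rw [Zsqrtd.im_mul, Zsqrtd.re_mul, Zsqrtd.im_mul, Zsqrtd.re_intCast, Zsqrtd.im_intCast,
        Zsqrtd.re_star, Zsqrtd.im_star, e1, e2]
      show Y (2 * t) = _
      rw [c3]
      ring
  · intro x hx
    obtain ⟨u, v, huv⟩ := hs x hx
    refine ⟨v, u + v * m, ?_⟩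
    rw [huv]
    push_cast
    ring

theorem Rel.ph_eq {t j : ℕ} (ht : 1 ≤ t) {p : ℤ × ℤ} {σ : ℤ} {y1 y2 : ℤ√2}
    (hp : p ∈ Red 3 (G t)) (h : Rel t j p σ y1 y2) :
    y1 ≠ 0 ∧ ph y2 = xv 3 (G t) p * ph y1 := by
  obtain ⟨hσ, hQ, hy, hL1, hL2, hs⟩ := h
  have hQpos : 0 < p.2 := hp.1
  have hQr : (0:ℝ) < (p.2 : ℝ) := by exact_mod_cast hQpos
  refine ⟨?_, ?_⟩
  · rintro rfl
    rw [Zsqrtd.norm_zero, mul_zero] at hQ
    omega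
  · have h1 := congrArg ph hy
    rw [ph_mul, ph_mul, ph_star] at h1
    have h2 : ph (⟨p.1, Y (2 * t)⟩ : ℤ√2) = (p.1 : ℝ) + bb 3 (G t) := by
      rw [bb_eq]
      rfl
    have h4 : ph (((2 * σ : ℤ)) : ℤ√2) = 2 * (σ : ℝ) := by
      unfold ph
      rw [Zsqrtd.re_intCast, Zsqrtd.im_intCast]
      push_cast
      ring
    rw [h2, h4] at h1
    have h5 := ph_mul_ps y1
    have h6 : (p.2 : ℝ) = 2 * σ * (y1.norm : ℝ) := by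
      rw [hQ]
      push_cast
      ring
    unfold xv
    rw [h1, div_mul_eq_mul_div, eq_div_iff hQr.ne', h6, ← h5]
    ring

theorem Rel.bound {t j : ℕ} (ht : 1 ≤ t) {p : ℤ × ℤ} {σ : ℤ} {y1 y2 : ℤ√2}
    (hp : p ∈ Red 3 (G t)) (h : Rel t j p σ y1 y2)
    (h1 : (X t : ℝ) * Y t ≤ 52 / 35 * |(y1.norm : ℝ)|)
    (h2 : (X t : ℝ) * Y t ≤ 52 / 35 * |(y2.norm : ℝ)|) :
    xv 3 (G t) p < 4 := by
  obtain ⟨hσ, hQ, hy, hL1, hL2, hs⟩ := h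
  obtain ⟨q1, -, q2, q3, q4⟩ := hp
  have hQr : (0:ℝ) < (p.2 : ℝ) := by exact_mod_cast q1
  have hXr : (0:ℝ) < X t := by exact_mod_cast X_pos t
  have hYr : (0:ℝ) < Y t := by exact_mod_cast Y_pos ht
  have hf : 0 < (X t : ℝ) * Y t := mul_pos hXr hYr
  have h6 : (p.2 : ℝ) = 2 * σ * (y1.norm : ℝ) := by
    rw [hQ]
    push_cast
    ring
  have h7 : (p.2 : ℝ) = 2 * |(y1.norm : ℝ)| := by
    rw [← abs_of_pos hQr, h6, abs_mul, abs_mul]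
    rcases hσ with rfl | rfl <;> norm_num
  have h8 : bb 3 (G t) = 2 * ((X t : ℝ) * Y t) * sr := by
    rw [bb_eq, Y_two_mul]
    push_cast
    ring
  -- the norm of y2 star y1
  have h9 : (p.1 : ℝ) ^ 2 - bb 3 (G t) ^ 2 = 4 * ((y1.norm : ℝ) * (y2.norm : ℝ)) := by
    have e1 := congrArg Zsqrtd.norm hy
    rw [Zsqrtd.norm_mul, Zsqrtd.norm_mul, Zsqrtd.norm_conj, Zsqrtd.norm_intCast,
      Zsqrtd.norm_def] at e1
    have e2 : (σ : ℤ) * σ = 1 := by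
      rcases hσ with rfl | rfl <;> norm_num
    have e3 : p.1 * p.1 - 2 * Y (2 * t) * Y (2 * t) = 4 * (y1.norm * y2.norm) := by
      have e4 : (⟨p.1, Y (2 * t)⟩ : ℤ√2).re = p.1 := rfl
      have e5 : (⟨p.1, Y (2 * t)⟩ : ℤ√2).im = Y (2 * t) := rfl
      rw [e4, e5] at e1
      linear_combination e1 + 4 * (y1.norm * y2.norm) * e2
    have e6 : (p.1 : ℝ) * p.1 - 2 * (Y (2 * t) : ℝ) * Y (2 * t) =
        4 * ((y1.norm : ℝ) * (y2.norm : ℝ)) := by exact_mod_cast e3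
    rw [bb_eq]
    have e7 := sr_mul_self
    linear_combination e6 - (Y (2 * t) : ℝ) ^ 2 * e7
  have h10 : bb 3 (G t) ^ 2 - (p.1 : ℝ) ^ 2 = 4 * (|(y1.norm : ℝ)| * |(y2.norm : ℝ)|) := by
    have hP : (0:ℝ) < p.1 := by linarith
    have e1 : 0 ≤ bb 3 (G t) ^ 2 - (p.1 : ℝ) ^ 2 := by nlinarith
    rw [← abs_mul, ← abs_of_nonneg e1,
      show bb 3 (G t) ^ 2 - (p.1 : ℝ) ^ 2 = -(4 * ((y1.norm : ℝ) * (y2.norm : ℝ))) by linarith,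
      abs_neg, abs_mul]
    norm_num
  by_contra hc
  push Not at hc
  unfold xv at hc
  rw [le_div_iff₀ hQr, h7] at hc
  set f : ℝ := (X t : ℝ) * Y t with hfd
  set n1 : ℝ := |(y1.norm : ℝ)| with hn1
  set n2 : ℝ := |(y2.norm : ℝ)| with hn2
  have hs1 := sr_lt
  have hs2 := sr_mul_self
  have h11 : bb 3 (G t) ^ 2 = 8 * f ^ 2 := by
    rw [h8]
    linear_combination (4 * f ^ 2) * hs2
  have h12 : bb 3 (G t) ≤ 2.8286 * f := by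
    rw [h8]
    nlinarith
  have h13 : 2.55 * f ≤ (p.1 : ℝ) := by linarith
  have h14 : (35 / 52 * f) * (35 / 52 * f) ≤ n1 * n2 :=
    mul_le_mul (by linarith) (by linarith) (by positivity) (by positivity)
  have h15 : (2.55 * f) * (2.55 * f) ≤ (p.1 : ℝ) * p.1 :=
    mul_le_mul h13 h13 (by positivity) (by linarith)
  have h16 : 0 < f * f := mul_pos hf hf
  nlinarith

private theorem Rl_iter {t j : ℕ} (ht : 1 ≤ t) {p : ℤ × ℤ} {σ : ℤ}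
    {y1 y2 : ℤ√2} (hp : p ∈ Red 3 (G t)) (h : Rel t j p σ y1 y2) (n : ℕ) :
    (nx 3 (G t))^[n] p ∈ Red 3 (G t) ∧
    ∃ (σ' : ℤ) (z1 z2 : ℤ√2), Rel t j ((nx 3 (G t))^[n] p) σ' z1 z2 ∧
      |ph z1| ≤ |ph y1| ∧
      (1 ≤ n → |ph z1| < |ph y1|) ∧
      ∀ M : ℝ, 1 ≤ M → (∀ i : ℕ, xv 3 (G t) ((nx 3 (G t))^[i] p) ≤ M) →
        |ph y1| ≤ M ^ n * |ph z1| := by
  induction n with
  | zero =>
    exact ⟨hp, σ, y1, y2, h, le_rfl, fun h => absurd h (by omega), fun M _ _ => by simp⟩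
  | succ n ih =>
    obtain ⟨hr, σ', z1, z2, hR, hle, -, hM⟩ := ih
    have hg := G_pos ht
    rw [Function.iterate_succ_apply']
    have hr' : nx 3 (G t) ((nx 3 (G t))^[n] p) ∈ Red 3 (G t) := nx_mem (by norm_num) hg hr
    have hR' := hR.next ht hr
    obtain ⟨hne, hph⟩ := hR'.ph_eq ht hr'
    have h1 := one_lt_xv hr'
    have h2 : 0 < |ph (z2 - ((⌊xv 3 (G t) ((nx 3 (G t))^[n] p)⌋ : ℤ) : ℤ√2) * z1)| :=
      abs_pos.2 (ph_ne hne)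
    have h3 : |ph z1| = xv 3 (G t) (nx 3 (G t) ((nx 3 (G t))^[n] p)) *
        |ph (z2 - ((⌊xv 3 (G t) ((nx 3 (G t))^[n] p)⌋ : ℤ) : ℤ√2) * z1)| := by
      rw [hph, abs_mul, abs_of_pos (by linarith)]
    have h4 : |ph (z2 - ((⌊xv 3 (G t) ((nx 3 (G t))^[n] p)⌋ : ℤ) : ℤ√2) * z1)| <
        |ph z1| := by
      rw [h3]
      nlinarith
    refine ⟨hr', -σ', _, z1, hR', (h4.trans_le hle).le, fun _ => h4.trans_le hle, ?_⟩
    intro M hM1 hx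
    have h5 := hM M hM1 hx
    have h6 := hx (n + 1)
    rw [Function.iterate_succ_apply'] at h6
    have h7 : |ph z1| ≤
        M * |ph (z2 - ((⌊xv 3 (G t) ((nx 3 (G t))^[n] p)⌋ : ℤ) : ℤ√2) * z1)| := by
      rw [h3]
      exact mul_le_mul_of_nonneg_right h6 h2.le
    have h8 : (0:ℝ) ≤ M ^ n := pow_nonneg (by linarith) n
    calc |ph y1| ≤ M ^ n * |ph z1| := h5
      _ ≤ M ^ n * (M * |ph (z2 -
          ((⌊xv 3 (G t) ((nx 3 (G t))^[n] p)⌋ : ℤ) : ℤ√2) * z1)|) :=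
        mul_le_mul_of_nonneg_left h7 h8
      _ = _ := by rw [pow_succ]; ring

theorem Rel.iter {t j : ℕ} (ht : 1 ≤ t) {p : ℤ × ℤ} {σ : ℤ} {y1 y2 : ℤ√2}
    (hp : p ∈ Red 3 (G t)) (h : Rel t j p σ y1 y2) (n : ℕ) :
    (nx 3 (G t))^[n] p ∈ Red 3 (G t) ∧
    ∃ (σ' : ℤ) (z1 z2 : ℤ√2), Rel t j ((nx 3 (G t))^[n] p) σ' z1 z2 ∧
      (1 ≤ n → |ph z1| < |ph y1|) ∧
      ∀ M : ℝ, 1 ≤ M → (∀ i : ℕ, xv 3 (G t) ((nx 3 (G t))^[i] p) ≤ M) →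
        |ph y1| ≤ M ^ n * |ph z1| := by
  obtain ⟨h1, σ', z1, z2, h2, -, h3, h4⟩ := Rl_iter ht hp h n
  exact ⟨h1, σ', z1, z2, h2, h3, h4⟩

end Pool.Agent.Helper65.KT
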